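import Mathlib

/-!
The divisor bound `d(n) ≤ C n^ε`.
-/

namespace Pool.Agent.MP_d807e3_co

open Finset

lemma two_rpow_ge {ε : ℝ} (a : ℕ) :
    1 + (a : ℝ) * (ε * Real.log 2) ≤ ((2 : ℝ) ^ a) ^ ε := by
  have h1 : ((2 : ℝ) ^ a) ^ ε = Real.exp ((a : ℝ) * (ε * Real.log 2)) := by
    rw [Real.rpow_def_of_pos (by positivity), Real.log_pow]
    congr 1
    ring
  rw [h1]
  have := Real.add_one_le_exp ((a : ℝ) * (ε * Real.log 2))
  linarith

/-- For every `ε > 0` there is a constant `C ≥ 1` with `d(n) ≤ C n^ε` for all `n ≥ 1`. -/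
theorem divisor_bound {ε : ℝ} (hε : 0 < ε) :
    ∃ C : ℝ, 1 ≤ C ∧ ∀ n : ℕ, 1 ≤ n → (n.divisors.card : ℝ) ≤ C * (n : ℝ) ^ ε := by
  classical
  have hlog : 0 < Real.log 2 := Real.log_pos (by norm_num)
  set C₀ : ℝ := max 1 (1 / (ε * Real.log 2)) with hC₀
  have hC₀1 : 1 ≤ C₀ := le_max_left _ _
  have hC₀2 : 1 / (ε * Real.log 2) ≤ C₀ := le_max_right _ _
  set K : ℕ := ⌈(2 : ℝ) ^ (1 / ε)⌉₊ with hK
  refine ⟨C₀ ^ K, one_le_pow₀ hC₀1, ?_⟩
  intro n hn
  have hn0 : n ≠ 0 := by omega
  have h1 : (n.divisors.card : ℝ) = ∏ p ∈ n.primeFactors, ((n.factorization p : ℝ) + 1) := by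
    rw [Nat.card_divisors hn0]
    push_cast
    rfl
  have h2 : (n : ℝ) ^ ε = ∏ p ∈ n.primeFactors, (((p : ℝ) ^ n.factorization p) ^ ε) := by
    conv_lhs => rw [← Nat.prod_factorization_pow_eq_self hn0]
    rw [Finsupp.prod]
    push_cast
    rw [Nat.support_factorization]
    rw [← Real.finsetProd_rpow]
    intro p _
    positivity
  -- local bound
  have hloc : ∀ p ∈ n.primeFactors, ((n.factorization p : ℝ) + 1) ≤
      (if p < K then C₀ else 1) * (((p : ℝ) ^ n.factorization p) ^ ε) := by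
    intro p hp
    have hpp : p.Prime := Nat.prime_of_mem_primeFactors hp
    have hp2 : (2 : ℝ) ≤ p := by exact_mod_cast hpp.two_le
    set a := n.factorization p with ha
    have hpa : ((2 : ℝ) ^ a) ^ ε ≤ ((p : ℝ) ^ a) ^ ε := by
      apply Real.rpow_le_rpow (by positivity) _ hε.le
      exact pow_le_pow_left₀ (by norm_num) hp2 a
    by_cases hpK : p < K
    · rw [if_pos hpK]
      have h3 := two_rpow_ge (ε := ε) a
      have h4 : (a : ℝ) + 1 ≤ C₀ * (1 + (a : ℝ) * (ε * Real.log 2)) := by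
        have h5 : (1 : ℝ) ≤ C₀ * (ε * Real.log 2) := by
          have h6 : (1 / (ε * Real.log 2)) * (ε * Real.log 2) ≤ C₀ * (ε * Real.log 2) :=
            mul_le_mul_of_nonneg_right hC₀2 (by positivity)
          have h7 : (1 / (ε * Real.log 2)) * (ε * Real.log 2) = 1 := by
            field_simp
          linarith
        have h8 : (0 : ℝ) ≤ a := by positivity
        nlinarith
      calc (a : ℝ) + 1 ≤ C₀ * (1 + (a : ℝ) * (ε * Real.log 2)) := h4
        _ ≤ C₀ * (((2 : ℝ) ^ a) ^ ε) := mul_le_mul_of_nonneg_left h3 (by linarith)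
        _ ≤ C₀ * (((p : ℝ) ^ a) ^ ε) := mul_le_mul_of_nonneg_left hpa (by linarith)
    · rw [if_neg hpK, one_mul]
      push Not at hpK
      have h3 : (2 : ℝ) ^ (1 / ε) ≤ p := by
        refine le_trans (Nat.le_ceil _) ?_
        exact_mod_cast hpK
      have h4 : (2 : ℝ) ≤ (p : ℝ) ^ ε := by
        calc (2 : ℝ) = ((2 : ℝ) ^ (1 / ε)) ^ ε := by
              rw [← Real.rpow_mul (by norm_num), one_div_mul_cancel hε.ne', Real.rpow_one]
          _ ≤ (p : ℝ) ^ ε := Real.rpow_le_rpow (by positivity) h3 hε.le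
      have h5 : ((p : ℝ) ^ a) ^ ε = ((p : ℝ) ^ ε) ^ a := by
        rw [← Real.rpow_natCast, ← Real.rpow_mul (by positivity), mul_comm,
          Real.rpow_mul (by positivity), Real.rpow_natCast]
      rw [h5]
      have h6 : (2 : ℝ) ^ a ≤ ((p : ℝ) ^ ε) ^ a := pow_le_pow_left₀ (by norm_num) h4 a
      have h7 : (a : ℝ) + 1 ≤ 2 ^ a := by
        have : a + 1 ≤ 2 ^ a := Nat.lt_two_pow_self
        exact_mod_cast this
      linarith
  rw [h1, h2]
  calc ∏ p ∈ n.primeFactors, ((n.factorization p : ℝ) + 1)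
      ≤ ∏ p ∈ n.primeFactors, ((if p < K then C₀ else 1) *
          (((p : ℝ) ^ n.factorization p) ^ ε)) :=
        Finset.prod_le_prod (fun p _ => by positivity) hloc
    _ = (∏ p ∈ n.primeFactors, (if p < K then C₀ else 1)) *
          ∏ p ∈ n.primeFactors, (((p : ℝ) ^ n.factorization p) ^ ε) :=
        Finset.prod_mul_distrib
    _ ≤ C₀ ^ K * ∏ p ∈ n.primeFactors, (((p : ℝ) ^ n.factorization p) ^ ε) := by
        apply mul_le_mul_of_nonneg_right _ (Finset.prod_nonneg (fun p _ => by positivity))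
        rw [Finset.prod_ite, Finset.prod_const_one, mul_one, Finset.prod_const]
        apply pow_le_pow_right₀ hC₀1
        calc (n.primeFactors.filter (fun p => p < K)).card ≤ (Finset.range K).card := by
              apply Finset.card_le_card
              intro p hp
              exact Finset.mem_range.2 (Finset.mem_filter.1 hp).2
          _ = K := Finset.card_range K

end Pool.Agent.MP_d807e3_co
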