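import Mathlib
import Pool.Agent.Lib.MP_d807e3_co.Divisors

/-!
Integer points on a hyperbola `(a - s)(b - r) = K` with arbitrary real `s`, `r` and `K ≠ 0`.
-/

namespace Pool.Agent.MP_d807e3_co

open Finset

/-- Number of integer pairs with prescribed divisor property. -/
lemma card_le_of_mul_eq {q s₁ r₁ n₀ : ℤ} (hq : q ≠ 0) (hn : n₀ ≠ 0) (T : Finset (ℤ × ℤ))
    (hT : ∀ p ∈ T, (q * p.1 - s₁) * (q * p.2 - r₁) = n₀) :
    T.card ≤ 2 * n₀.natAbs.divisors.card := by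
  classical
  have hmap : ∀ p ∈ T, ((q * p.1 - s₁).natAbs, decide (0 ≤ q * p.1 - s₁)) ∈
      n₀.natAbs.divisors ×ˢ (Finset.univ : Finset Bool) := by
    intro p hp
    rw [Finset.mem_product]
    refine ⟨?_, Finset.mem_univ _⟩
    rw [Nat.mem_divisors]
    refine ⟨?_, ?_⟩
    · rw [Int.natAbs_dvd_natAbs]
      exact ⟨_, (hT p hp).symm⟩
    · intro h
      exact hn (Int.natAbs_eq_zero.1 h)
  have hinj : Set.InjOn (fun p : ℤ × ℤ => ((q * p.1 - s₁).natAbs, decide (0 ≤ q * p.1 - s₁)))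
      (T : Set (ℤ × ℤ)) := by
    intro p hp p' hp' heq
    simp only [Prod.mk.injEq, decide_eq_decide] at heq
    obtain ⟨h1, h2⟩ := heq
    have h3 : q * p.1 - s₁ = q * p'.1 - s₁ := by
      rcases Int.natAbs_eq_natAbs_iff.1 h1 with h | h
      · exact h
      · by_cases h0 : 0 ≤ q * p.1 - s₁
        · have := h2.1 h0
          omega
        · have h0' : ¬ 0 ≤ q * p'.1 - s₁ := fun h' => h0 (h2.2 h')
          omega
    have h4 : p.1 = p'.1 := by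
      have : q * p.1 = q * p'.1 := by linarith
      exact mul_left_cancel₀ hq this
    have h5 : q * p.1 - s₁ ≠ 0 := by
      intro h0
      apply hn
      rw [← hT p hp, h0, zero_mul]
    have h6 : q * p.2 - r₁ = q * p'.2 - r₁ := by
      have h7 : (q * p.1 - s₁) * (q * p.2 - r₁) = (q * p.1 - s₁) * (q * p'.2 - r₁) := by
        rw [hT p hp]
        rw [h3]
        exact (hT p' hp').symm
      exact mul_left_cancel₀ h5 h7
    have h8 : p.2 = p'.2 := by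
      have : q * p.2 = q * p'.2 := by linarith
      exact mul_left_cancel₀ hq this
    exact Prod.ext h4 h8
  calc T.card ≤ (n₀.natAbs.divisors ×ˢ (Finset.univ : Finset Bool)).card :=
        Finset.card_le_card_of_injOn _ hmap hinj
    _ = 2 * n₀.natAbs.divisors.card := by
        rw [Finset.card_product]
        simp [mul_comm]

/-- Three distinct points of a hyperbola are not collinear. -/
lemma hyperbola_not_collinear {x₁ x₂ x₃ y₁ y₂ y₃ K : ℝ} (hK : K ≠ 0) (h1 : x₁ * y₁ = K)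
    (h2 : x₂ * y₂ = K) (h3 : x₃ * y₃ = K) (h12 : x₁ ≠ x₂) (h13 : x₁ ≠ x₃) (h23 : x₂ ≠ x₃) :
    (x₁ - x₂) * (y₁ - y₃) - (x₁ - x₃) * (y₁ - y₂) ≠ 0 := by
  have hx1 : x₁ ≠ 0 := by rintro rfl; apply hK; rw [← h1]; ring
  have hx2 : x₂ ≠ 0 := by rintro rfl; apply hK; rw [← h2]; ring
  have hx3 : x₃ ≠ 0 := by rintro rfl; apply hK; rw [← h3]; ring
  have e1 : y₁ = K / x₁ := by field_simp; linarith
  have e2 : y₂ = K / x₂ := by field_simp; linarith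
  have e3 : y₃ = K / x₃ := by field_simp; linarith
  have hval : (x₁ - x₂) * (y₁ - y₃) - (x₁ - x₃) * (y₁ - y₂) =
      K * ((x₁ - x₂) * (x₁ - x₃) * (x₂ - x₃)) * (-1) / (x₁ * x₂ * x₃) := by
    rw [e1, e2, e3]
    field_simp
    ring
  rw [hval]
  apply div_ne_zero
  · apply mul_ne_zero
    · apply mul_ne_zero hK
      apply mul_ne_zero
      · exact mul_ne_zero (sub_ne_zero.2 h12) (sub_ne_zero.2 h13)
      · exact sub_ne_zero.2 h23
    · norm_num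
  · exact mul_ne_zero (mul_ne_zero hx1 hx2) hx3

/-- For every `ε > 0` there is `C` such that for all `M ≥ 1` and real `s, r`, `K ≠ 0`, the
hyperbola `(a - s)(b - r) = K` has at most `C M^ε` integer points with `|a|, |b| ≤ M`. -/
theorem hyperbola_count {ε : ℝ} (hε : 0 < ε) :
    ∃ C : ℝ, 2 ≤ C ∧ ∀ (M : ℕ) (s r K : ℝ) (T : Finset (ℤ × ℤ)), 1 ≤ M → K ≠ 0 →
      (∀ p ∈ T, |p.1| ≤ M ∧ |p.2| ≤ M ∧ ((p.1 : ℝ) - s) * ((p.2 : ℝ) - r) = K) →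
      (T.card : ℝ) ≤ C * (M : ℝ) ^ ε := by
  classical
  obtain ⟨C₁, hC₁, hdiv⟩ := divisor_bound (ε := ε / 6) (by positivity)
  refine ⟨2 * (C₁ * (256 : ℝ) ^ (ε / 6)), ?_, ?_⟩
  · have h1 : (1 : ℝ) ≤ (256 : ℝ) ^ (ε / 6) := Real.one_le_rpow (by norm_num) (by positivity)
    have h2 : (1 : ℝ) ≤ C₁ * (256 : ℝ) ^ (ε / 6) := by nlinarith
    linarith
  intro M s r K T hM hK hT
  have hMε : (1 : ℝ) ≤ (M : ℝ) ^ ε := Real.one_le_rpow (by exact_mod_cast hM) hε.le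
  have h256 : (1 : ℝ) ≤ (256 : ℝ) ^ (ε / 6) := Real.one_le_rpow (by norm_num) (by positivity)
  have hCge : (1 : ℝ) ≤ C₁ * (256 : ℝ) ^ (ε / 6) := by nlinarith
  by_cases hcard : T.card ≤ 2
  · have : (T.card : ℝ) ≤ 2 := by exact_mod_cast hcard
    nlinarith
  push Not at hcard
  obtain ⟨p₁, hp1, p₂, hp2, p₃, hp3, h12, h13, h23⟩ := Finset.two_lt_card.1 hcard
  obtain ⟨a1, b1, e1⟩ := hT p₁ hp1
  obtain ⟨a2, b2, e2⟩ := hT p₂ hp2
  obtain ⟨a3, b3, e3⟩ := hT p₃ hp3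
  -- first coordinates are distinct
  have hfst : ∀ p p' : ℤ × ℤ, ((p.1 : ℝ) - s) * ((p.2 : ℝ) - r) = K →
      ((p'.1 : ℝ) - s) * ((p'.2 : ℝ) - r) = K → p ≠ p' → ((p.1 : ℝ) - s) ≠ (p'.1 : ℝ) - s := by
    intro p p' h h' hne heq
    have hx : (p.1 : ℝ) - s ≠ 0 := by
      intro h0
      apply hK
      rw [← h, h0, zero_mul]
    have hy : (p.2 : ℝ) - r = (p'.2 : ℝ) - r := by
      have : ((p.1 : ℝ) - s) * ((p.2 : ℝ) - r) = ((p.1 : ℝ) - s) * ((p'.2 : ℝ) - r) := by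
        rw [h]
        rw [heq]
        exact h'.symm
      exact mul_left_cancel₀ hx this
    apply hne
    apply Prod.ext
    · have : (p.1 : ℝ) = p'.1 := by linarith
      exact_mod_cast this
    · have : (p.2 : ℝ) = p'.2 := by linarith
      exact_mod_cast this
  set q : ℤ := (p₁.1 - p₂.1) * (p₁.2 - p₃.2) - (p₁.1 - p₃.1) * (p₁.2 - p₂.2) with hq
  set s₁ : ℤ := -((p₁.1 * p₁.2 - p₂.1 * p₂.2) * (p₁.1 - p₃.1) -
    (p₁.1 * p₁.2 - p₃.1 * p₃.2) * (p₁.1 - p₂.1)) with hs₁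
  set r₁ : ℤ := -((p₁.1 * p₁.2 - p₃.1 * p₃.2) * (p₁.2 - p₂.2) -
    (p₁.1 * p₁.2 - p₂.1 * p₂.2) * (p₁.2 - p₃.2)) with hr₁
  have hqne : (q : ℝ) ≠ 0 := by
    have h := hyperbola_not_collinear hK e1 e2 e3 (hfst _ _ e1 e2 h12) (hfst _ _ e1 e3 h13)
      (hfst _ _ e2 e3 h23)
    intro h0
    apply h
    have : (q : ℝ) = ((p₁.1 : ℝ) - p₂.1) * ((p₁.2 : ℝ) - p₃.2) -
      ((p₁.1 : ℝ) - p₃.1) * ((p₁.2 : ℝ) - p₂.2) := by
      rw [hq]
      push_cast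
      ring
    rw [← h0, this]
    ring
  have hqs : (q : ℝ) * s = s₁ := by
    rw [hq, hs₁]
    push_cast
    have h1 : (p₁.1 : ℝ) * p₁.2 - p₂.1 * p₂.2 = r * (p₁.1 - p₂.1) + s * (p₁.2 - p₂.2) := by
      linarith
    have h2 : (p₁.1 : ℝ) * p₁.2 - p₃.1 * p₃.2 = r * (p₁.1 - p₃.1) + s * (p₁.2 - p₃.2) := by
      linarith
    rw [h1, h2]
    ring
  have hqr : (q : ℝ) * r = r₁ := by
    rw [hq, hr₁]
    push_cast
    have h1 : (p₁.1 : ℝ) * p₁.2 - p₂.1 * p₂.2 = r * (p₁.1 - p₂.1) + s * (p₁.2 - p₂.2) := by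
      linarith
    have h2 : (p₁.1 : ℝ) * p₁.2 - p₃.1 * p₃.2 = r * (p₁.1 - p₃.1) + s * (p₁.2 - p₃.2) := by
      linarith
    rw [h1, h2]
    ring
  set n₀ : ℤ := (q * p₁.1 - s₁) * (q * p₁.2 - r₁) with hn₀
  have hval : ∀ p : ℤ × ℤ, (((q * p.1 - s₁) * (q * p.2 - r₁) : ℤ) : ℝ) =
      (q : ℝ) ^ 2 * (((p.1 : ℝ) - s) * ((p.2 : ℝ) - r)) := by
    intro p
    push_cast
    rw [← hqs, ← hqr]
    ring
  have hn₀v : (n₀ : ℝ) = (q : ℝ) ^ 2 * K := by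
    rw [hn₀, hval, e1]
  have hn₀ne : n₀ ≠ 0 := by
    intro h0
    have : (n₀ : ℝ) = 0 := by rw [h0]; simp
    rw [hn₀v] at this
    exact (mul_ne_zero (pow_ne_zero 2 hqne) hK) this
  have hqne' : q ≠ 0 := by
    intro h0
    apply hqne
    rw [h0]
    simp
  have hTall : ∀ p ∈ T, (q * p.1 - s₁) * (q * p.2 - r₁) = n₀ := by
    intro p hp
    have h := (hT p hp).2.2
    have h2 : (((q * p.1 - s₁) * (q * p.2 - r₁) : ℤ) : ℝ) = (n₀ : ℝ) := by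
      rw [hval, h, hn₀v]
    exact_mod_cast h2
  have hcount := card_le_of_mul_eq hqne' hn₀ne T hTall
  -- size of `n₀`
  have hMr : (1 : ℤ) ≤ M := by exact_mod_cast hM
  have hM0 : (0 : ℤ) ≤ M := by omega
  have hd : ∀ x y : ℤ, |x| ≤ M → |y| ≤ M → |x - y| ≤ 2 * M := by
    intro x y hx hy
    have := abs_sub x y
    linarith
  have hm : ∀ x y : ℤ, |x| ≤ M → |y| ≤ M → |x * y| ≤ M * M := by
    intro x y hx hy
    rw [abs_mul]
    exact mul_le_mul hx hy (abs_nonneg _) hM0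
  have hq_le : |q| ≤ 8 * M ^ 2 := by
    have h1 : |(p₁.1 - p₂.1) * (p₁.2 - p₃.2)| ≤ (2 * M) * (2 * M) := by
      rw [abs_mul]
      exact mul_le_mul (hd _ _ a1 a2) (hd _ _ b1 b3) (abs_nonneg _) (by positivity)
    have h2 : |(p₁.1 - p₃.1) * (p₁.2 - p₂.2)| ≤ (2 * M) * (2 * M) := by
      rw [abs_mul]
      exact mul_le_mul (hd _ _ a1 a3) (hd _ _ b1 b2) (abs_nonneg _) (by positivity)
    have h3 := abs_sub ((p₁.1 - p₂.1) * (p₁.2 - p₃.2)) ((p₁.1 - p₃.1) * (p₁.2 - p₂.2))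
    rw [hq]
    nlinarith
  have hprod : ∀ x y z w u v : ℤ, |x| ≤ M → |y| ≤ M → |z| ≤ M → |w| ≤ M → |u| ≤ M → |v| ≤ M →
      |(x * y - z * w) * (u - v)| ≤ 4 * M ^ 3 := by
    intro x y z w u v hx hy hz hw hu hv
    rw [abs_mul]
    have h1 : |x * y - z * w| ≤ 2 * (M * M) := by
      have := abs_sub (x * y) (z * w)
      have h2 := hm x y hx hy
      have h3 := hm z w hz hw
      linarith
    have h2 := hd u v hu hv
    calc |x * y - z * w| * |u - v| ≤ (2 * (M * M)) * (2 * M) :=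
          mul_le_mul h1 h2 (abs_nonneg _) (by positivity)
      _ = 4 * M ^ 3 := by ring
  have hs_le : |s₁| ≤ 8 * M ^ 3 := by
    rw [hs₁, abs_neg]
    have h1 := hprod _ _ _ _ _ _ a1 b1 a2 b2 a1 a3
    have h2 := hprod _ _ _ _ _ _ a1 b1 a3 b3 a1 a2
    have h3 := abs_sub ((p₁.1 * p₁.2 - p₂.1 * p₂.2) * (p₁.1 - p₃.1))
      ((p₁.1 * p₁.2 - p₃.1 * p₃.2) * (p₁.1 - p₂.1))
    linarith
  have hr_le : |r₁| ≤ 8 * M ^ 3 := by
    rw [hr₁, abs_neg]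
    have h1 := hprod _ _ _ _ _ _ a1 b1 a3 b3 b1 b2
    have h2 := hprod _ _ _ _ _ _ a1 b1 a2 b2 b1 b3
    have h3 := abs_sub ((p₁.1 * p₁.2 - p₃.1 * p₃.2) * (p₁.2 - p₂.2))
      ((p₁.1 * p₁.2 - p₂.1 * p₂.2) * (p₁.2 - p₃.2))
    linarith
  have hfac : ∀ x t : ℤ, |x| ≤ M → |t| ≤ 8 * M ^ 3 → |q * x - t| ≤ 16 * M ^ 3 := by
    intro x t hx ht
    have h1 := abs_sub (q * x) t
    have h2 : |q * x| ≤ (8 * M ^ 2) * M := by
      rw [abs_mul]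
      exact mul_le_mul hq_le hx (abs_nonneg _) (by positivity)
    have h3 : (8 * (M : ℤ) ^ 2) * M = 8 * M ^ 3 := by ring
    linarith
  have hn_le : |n₀| ≤ 256 * M ^ 6 := by
    rw [hn₀, abs_mul]
    calc |q * p₁.1 - s₁| * |q * p₁.2 - r₁| ≤ (16 * M ^ 3) * (16 * M ^ 3) :=
          mul_le_mul (hfac _ _ a1 hs_le) (hfac _ _ b1 hr_le) (abs_nonneg _) (by positivity)
      _ = 256 * M ^ 6 := by ring
  have hnat : (n₀.natAbs : ℝ) ≤ 256 * (M : ℝ) ^ 6 := by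
    have h1 : ((n₀.natAbs : ℤ) : ℝ) = ((|n₀| : ℤ) : ℝ) := by
      rw [Int.natCast_natAbs]
    have h2 : (n₀.natAbs : ℝ) = ((n₀.natAbs : ℤ) : ℝ) := by simp
    rw [h2, h1]
    exact_mod_cast hn_le
  have hnpos : 1 ≤ n₀.natAbs := Nat.one_le_iff_ne_zero.2 (Int.natAbs_ne_zero.2 hn₀ne)
  have hdv := hdiv n₀.natAbs hnpos
  have hpow : ((n₀.natAbs : ℝ)) ^ (ε / 6) ≤ (256 : ℝ) ^ (ε / 6) * (M : ℝ) ^ ε := by
    calc ((n₀.natAbs : ℝ)) ^ (ε / 6) ≤ (256 * (M : ℝ) ^ 6) ^ (ε / 6) :=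
          Real.rpow_le_rpow (by positivity) hnat (by positivity)
      _ = (256 : ℝ) ^ (ε / 6) * ((M : ℝ) ^ 6) ^ (ε / 6) :=
          Real.mul_rpow (by norm_num) (by positivity)
      _ = (256 : ℝ) ^ (ε / 6) * (M : ℝ) ^ ε := by
          congr 1
          rw [← Real.rpow_natCast, ← Real.rpow_mul (by positivity)]
          congr 1
          push_cast
          ring
  calc (T.card : ℝ) ≤ ((2 * n₀.natAbs.divisors.card : ℕ) : ℝ) := by exact_mod_cast hcount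
    _ = 2 * (n₀.natAbs.divisors.card : ℝ) := by push_cast; ring
    _ ≤ 2 * (C₁ * (n₀.natAbs : ℝ) ^ (ε / 6)) := by linarith
    _ ≤ 2 * (C₁ * ((256 : ℝ) ^ (ε / 6) * (M : ℝ) ^ ε)) := by
        have : C₁ * (n₀.natAbs : ℝ) ^ (ε / 6) ≤ C₁ * ((256 : ℝ) ^ (ε / 6) * (M : ℝ) ^ ε) :=
          mul_le_mul_of_nonneg_left hpow (by linarith)
        linarith
    _ = 2 * (C₁ * (256 : ℝ) ^ (ε / 6)) * (M : ℝ) ^ ε := by ring

end Pool.Agent.MP_d807e3_co
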