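import Mathlib
import Pool.Agent.Lib.MP_d807e3_co.Hyperbola

/-!
The energy argument.
-/

namespace Pool.Agent.MP_d807e3_co

open Finset

/-- The quadratic polynomial that describes squared distances. -/
noncomputable def qf (A B C D E F : ℝ) (i t : ℝ) : ℝ :=
  A * i ^ 2 - 2 * B * i * t + C * t ^ 2 + 2 * D * i - 2 * E * t + F

/-- Cauchy-Schwarz for the number of values. -/
lemma card_sq_le {α : Type*} (X : Finset α) (f : α → ℝ) :
    X.card ^ 2 ≤ (X.image f).card * ∑ z ∈ X, ∑ z' ∈ X, (if f z = f z' then 1 else 0) := by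
  classical
  have h1 : X.card = ∑ d ∈ X.image f, (X.filter (fun z => f z = d)).card :=
    Finset.card_eq_sum_card_image f X
  have h2 : ∑ z ∈ X, ∑ z' ∈ X, (if f z = f z' then 1 else 0) =
      ∑ d ∈ X.image f, (X.filter (fun z => f z = d)).card ^ 2 := by
    have h3 : ∀ z ∈ X, f z ∈ X.image f := fun z hz => Finset.mem_image_of_mem f hz
    rw [← Finset.sum_fiberwise_of_maps_to h3]
    refine Finset.sum_congr rfl (fun d _ => ?_)
    have h4 : ∀ z ∈ X.filter (fun z => f z = d),
        (∑ z' ∈ X, (if f z = f z' then 1 else 0)) = (X.filter (fun z => f z = d)).card := by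
      intro z hz
      have hz' := (Finset.mem_filter.1 hz).2
      rw [hz', Finset.card_filter]
      refine Finset.sum_congr rfl (fun z' _ => ?_)
      simp only [eq_comm]
    rw [Finset.sum_congr rfl h4, Finset.sum_const, smul_eq_mul, sq]
  rw [h2]
  conv_lhs => rw [h1]
  exact sq_sum_le_card_mul_sum_sq

lemma energy_fiber (T₁ : Finset ℕ) (T₂ : Finset ℝ) (f : ℕ → ℝ → ℝ) :
    ∑ z ∈ T₁ ×ˢ T₂, ∑ z' ∈ T₁ ×ˢ T₂, (if f z.1 z.2 = f z'.1 z'.2 then 1 else 0) =
      ∑ p ∈ T₂ ×ˢ T₂, ((T₁ ×ˢ T₁).filter (fun q => f q.1 p.1 = f q.2 p.2)).card := by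
  classical
  simp only [Finset.card_filter, Finset.sum_product]
  rw [Finset.sum_comm]
  refine Finset.sum_congr rfl (fun t _ => ?_)
  have : ∀ i ∈ T₁, ∑ i' ∈ T₁, ∑ t' ∈ T₂, (if f i t = f i' t' then 1 else 0) =
      ∑ t' ∈ T₂, ∑ i' ∈ T₁, (if f i t = f i' t' then 1 else 0) :=
    fun i _ => Finset.sum_comm
  rw [Finset.sum_congr rfl this, Finset.sum_comm]

/-- The factorisation of the difference of two values. -/
lemma qf_sub {A B C D E F i i' t t' : ℝ} (h : qf A B C D E F i t = qf A B C D E F i' t') :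
    (A * (i - i') - B * (t - t')) * (A * (i + i') + 2 * D - B * (t + t')) =
      (t - t') * (2 * (A * E - B * D) - (A * C - B ^ 2) * (t + t')) := by
  unfold qf at h
  linear_combination A * h

theorem abstract_count {ε : ℝ} (hε : 0 < ε) :
    ∃ K : ℝ, 1 ≤ K ∧ ∀ (N : ℕ) (A B C D E F : ℝ) (T₁ : Finset ℕ) (T₂ : Finset ℝ),
      1 ≤ N → 0 < A → B ^ 2 < A * C → (∀ i ∈ T₁, i < N) →
      (T₁.card : ℝ) * min (T₁.card : ℝ) (T₂.card : ℝ) ≤
        K * (N : ℝ) ^ ε *
          (((T₁ ×ˢ T₂).image (fun z => qf A B C D E F (z.1 : ℝ) z.2)).card : ℝ) := by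
  classical
  obtain ⟨C₀, hC₀, hyp⟩ := hyperbola_count hε
  refine ⟨4 + C₀ * 2 ^ ε, ?_, ?_⟩
  · have : (0 : ℝ) ≤ C₀ * 2 ^ ε := by positivity
    linarith
  intro N A B C D E F T₁ T₂ hN hA hAC hT₁
  set f : ℕ → ℝ → ℝ := fun i t => qf A B C D E F (i : ℝ) t with hf
  set m : ℝ := (T₁.card : ℝ) with hm
  set n : ℝ := (T₂.card : ℝ) with hn
  set Dn : ℝ := (((T₁ ×ˢ T₂).image (fun z => qf A B C D E F (z.1 : ℝ) z.2)).card : ℝ) with hDn
  have hm0 : 0 ≤ m := by positivity
  have hn0 : 0 ≤ n := by positivity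
  have hDn0 : 0 ≤ Dn := by positivity
  set Bd : ℝ := C₀ * ((2 * N : ℕ) : ℝ) ^ ε with hBd
  have hNε : (1 : ℝ) ≤ (N : ℝ) ^ ε := Real.one_le_rpow (by exact_mod_cast hN) hε.le
  have hBd0 : 0 ≤ Bd := by positivity
  set τ : ℝ := 2 * (A * E - B * D) / (A * C - B ^ 2) with hτ
  have hdet : 0 < A * C - B ^ 2 := by linarith
  -- bad pairs
  set bad : ℝ × ℝ → Prop := fun p => p.1 = p.2 ∨ p.1 + p.2 = τ with hbad
  -- bound for good pairs
  have hgood : ∀ p : ℝ × ℝ, ¬ bad p →
      (((T₁ ×ˢ T₁).filter (fun q => f q.1 p.1 = f q.2 p.2)).card : ℝ) ≤ Bd := by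
    intro p hp
    simp only [hbad, not_or] at hp
    obtain ⟨hp1, hp2⟩ := hp
    set S := (T₁ ×ˢ T₁).filter (fun q => f q.1 p.1 = f q.2 p.2) with hS
    set T : Finset (ℤ × ℤ) := S.image (fun q => ((q.1 : ℤ) - q.2, (q.1 : ℤ) + q.2)) with hT
    have hcard : T.card = S.card := by
      apply Finset.card_image_of_injective
      intro q q' h
      simp only [Prod.mk.injEq] at h
      apply Prod.ext
      · omega
      · omega
    have hR : (p.1 - p.2) * (2 * (A * E - B * D) - (A * C - B ^ 2) * (p.1 + p.2)) ≠ 0 := by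
      apply mul_ne_zero
      · exact sub_ne_zero.2 hp1
      · intro h0
        apply hp2
        rw [hτ, eq_div_iff hdet.ne']
        linarith
    have := hyp (2 * N) (B * (p.1 - p.2) / A) ((B * (p.1 + p.2) - 2 * D) / A)
      ((p.1 - p.2) * (2 * (A * E - B * D) - (A * C - B ^ 2) * (p.1 + p.2)) / A ^ 2) T
      (by omega) (div_ne_zero hR (pow_ne_zero 2 hA.ne')) ?_
    · rw [hcard] at this
      exact this
    · intro x hx
      obtain ⟨q, hq, rfl⟩ := Finset.mem_image.1 hx
      obtain ⟨hq1, hq2⟩ := Finset.mem_filter.1 hq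
      have h1 := hT₁ _ (Finset.mem_product.1 hq1).1
      have h2 := hT₁ _ (Finset.mem_product.1 hq1).2
      refine ⟨?_, ?_, ?_⟩
      · rw [abs_le]
        constructor <;> push_cast <;> omega
      · rw [abs_le]
        constructor <;> push_cast <;> omega
      · have h3 := qf_sub hq2
        push_cast
        field_simp
        linarith
  -- bound for bad pairs
  have hbadle : ∀ p : ℝ × ℝ, bad p →
      ((T₁ ×ˢ T₁).filter (fun q => f q.1 p.1 = f q.2 p.2)).card ≤ 2 * T₁.card := by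
    intro p hp
    set Sa := (T₁ ×ˢ T₁).filter
      (fun q => A * ((q.1 : ℝ) - q.2) - B * (p.1 - p.2) = 0) with hSa
    set Sb := (T₁ ×ˢ T₁).filter
      (fun q => A * ((q.1 : ℝ) + q.2) + 2 * D - B * (p.1 + p.2) = 0) with hSb
    have hsub : (T₁ ×ˢ T₁).filter (fun q => f q.1 p.1 = f q.2 p.2) ⊆ Sa ∪ Sb := by
      intro q hq
      obtain ⟨hq1, hq2⟩ := Finset.mem_filter.1 hq
      have h3 := qf_sub hq2
      have h4 : (p.1 - p.2) * (2 * (A * E - B * D) - (A * C - B ^ 2) * (p.1 + p.2)) = 0 := by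
        rcases hp with h | h
        · rw [h]; ring
        · rw [h, hτ]
          field_simp
          ring
      rw [h4] at h3
      rcases mul_eq_zero.1 h3 with h | h
      · exact Finset.mem_union_left _ (Finset.mem_filter.2 ⟨hq1, h⟩)
      · exact Finset.mem_union_right _ (Finset.mem_filter.2 ⟨hq1, h⟩)
    have ha : Sa.card ≤ T₁.card := by
      apply Finset.card_le_card_of_injOn Prod.fst
      · intro q hq
        exact (Finset.mem_product.1 (Finset.mem_filter.1 hq).1).1
      · intro q hq q' hq' heq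
        have e1 := (Finset.mem_filter.1 hq).2
        have e2 := (Finset.mem_filter.1 hq').2
        apply Prod.ext heq
        have e3 : (q.1 : ℝ) = q'.1 := by exact_mod_cast heq
        have e4 : A * (q.2 : ℝ) = A * q'.2 := by rw [e3] at e1; linarith
        have e5 := mul_left_cancel₀ hA.ne' e4
        exact_mod_cast e5
    have hb : Sb.card ≤ T₁.card := by
      apply Finset.card_le_card_of_injOn Prod.fst
      · intro q hq
        exact (Finset.mem_product.1 (Finset.mem_filter.1 hq).1).1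
      · intro q hq q' hq' heq
        have e1 := (Finset.mem_filter.1 hq).2
        have e2 := (Finset.mem_filter.1 hq').2
        apply Prod.ext heq
        have e3 : (q.1 : ℝ) = q'.1 := by exact_mod_cast heq
        have e4 : A * (q.2 : ℝ) = A * q'.2 := by rw [e3] at e1; linarith
        have e5 := mul_left_cancel₀ hA.ne' e4
        exact_mod_cast e5
    have h1 := Finset.card_le_card hsub
    have h2 := Finset.card_union_le Sa Sb
    omega
  -- number of bad pairs
  have hbadcard : ((T₂ ×ˢ T₂).filter bad).card ≤ 2 * T₂.card := by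
    have hsub : (T₂ ×ˢ T₂).filter bad ⊆ (T₂ ×ˢ T₂).filter (fun p => p.1 = p.2) ∪
        (T₂ ×ˢ T₂).filter (fun p => p.1 + p.2 = τ) := by
      intro p hp
      obtain ⟨hp1, hp2⟩ := Finset.mem_filter.1 hp
      rcases hp2 with h | h
      · exact Finset.mem_union_left _ (Finset.mem_filter.2 ⟨hp1, h⟩)
      · exact Finset.mem_union_right _ (Finset.mem_filter.2 ⟨hp1, h⟩)
    have ha : ((T₂ ×ˢ T₂).filter (fun p => p.1 = p.2)).card ≤ T₂.card := by
      apply Finset.card_le_card_of_injOn Prod.fst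
      · intro q hq
        exact (Finset.mem_product.1 (Finset.mem_filter.1 hq).1).1
      · intro q hq q' hq' heq
        have e1 := (Finset.mem_filter.1 hq).2
        have e2 := (Finset.mem_filter.1 hq').2
        apply Prod.ext heq
        rw [← e1, ← e2]
        exact heq
    have hb : ((T₂ ×ˢ T₂).filter (fun p => p.1 + p.2 = τ)).card ≤ T₂.card := by
      apply Finset.card_le_card_of_injOn Prod.fst
      · intro q hq
        exact (Finset.mem_product.1 (Finset.mem_filter.1 hq).1).1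
      · intro q hq q' hq' heq
        have e1 := (Finset.mem_filter.1 hq).2
        have e2 := (Finset.mem_filter.1 hq').2
        apply Prod.ext heq
        have e3 : q.1 = q'.1 := heq
        linarith
    have h1 := Finset.card_le_card hsub
    have h2 := Finset.card_union_le ((T₂ ×ˢ T₂).filter (fun p => p.1 = p.2))
      ((T₂ ×ˢ T₂).filter (fun p => p.1 + p.2 = τ))
    omega
  -- the energy
  have henergy : ((∑ p ∈ T₂ ×ˢ T₂,
      ((T₁ ×ˢ T₁).filter (fun q => f q.1 p.1 = f q.2 p.2)).card : ℕ) : ℝ) ≤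
      4 * m * n + n ^ 2 * Bd := by
    push_cast
    rw [← Finset.sum_filter_add_sum_filter_not (T₂ ×ˢ T₂) bad]
    have h1 : ∑ p ∈ (T₂ ×ˢ T₂).filter bad,
        (((T₁ ×ˢ T₁).filter (fun q => f q.1 p.1 = f q.2 p.2)).card : ℝ) ≤ 4 * m * n := by
      calc ∑ p ∈ (T₂ ×ˢ T₂).filter bad,
          (((T₁ ×ˢ T₁).filter (fun q => f q.1 p.1 = f q.2 p.2)).card : ℝ)
          ≤ ∑ p ∈ (T₂ ×ˢ T₂).filter bad, (2 * m) := by
            refine Finset.sum_le_sum (fun p hp => ?_)
            have := hbadle p (Finset.mem_filter.1 hp).2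
            rw [hm]
            exact_mod_cast this
        _ = (((T₂ ×ˢ T₂).filter bad).card : ℝ) * (2 * m) := by
            rw [Finset.sum_const, nsmul_eq_mul]
        _ ≤ (2 * n) * (2 * m) := by
            apply mul_le_mul_of_nonneg_right _ (by positivity)
            rw [hn]
            exact_mod_cast hbadcard
        _ = 4 * m * n := by ring
    have h2 : ∑ p ∈ (T₂ ×ˢ T₂).filter (fun p => ¬ bad p),
        (((T₁ ×ˢ T₁).filter (fun q => f q.1 p.1 = f q.2 p.2)).card : ℝ) ≤ n ^ 2 * Bd := by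
      calc ∑ p ∈ (T₂ ×ˢ T₂).filter (fun p => ¬ bad p),
          (((T₁ ×ˢ T₁).filter (fun q => f q.1 p.1 = f q.2 p.2)).card : ℝ)
          ≤ ∑ p ∈ (T₂ ×ˢ T₂).filter (fun p => ¬ bad p), Bd := by
            refine Finset.sum_le_sum (fun p hp => ?_)
            exact hgood p (Finset.mem_filter.1 hp).2
        _ = (((T₂ ×ˢ T₂).filter (fun p => ¬ bad p)).card : ℝ) * Bd := by
            rw [Finset.sum_const, nsmul_eq_mul]
        _ ≤ n ^ 2 * Bd := by
            apply mul_le_mul_of_nonneg_right _ hBd0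
            have h3 : ((T₂ ×ˢ T₂).filter (fun p => ¬ bad p)).card ≤ T₂.card * T₂.card := by
              rw [← Finset.card_product]
              exact Finset.card_filter_le _ _
            rw [hn, sq]
            exact_mod_cast h3
    linarith
  -- Cauchy-Schwarz
  have hcs : (m * n) ^ 2 ≤ Dn * (4 * m * n + n ^ 2 * Bd) := by
    have h1 := card_sq_le (T₁ ×ˢ T₂) (fun z => f z.1 z.2)
    rw [energy_fiber T₁ T₂ f] at h1
    have h2 : (((T₁ ×ˢ T₂).card : ℝ)) ^ 2 ≤ Dn * ((∑ p ∈ T₂ ×ˢ T₂,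
      ((T₁ ×ˢ T₁).filter (fun q => f q.1 p.1 = f q.2 p.2)).card : ℕ) : ℝ) := by
      rw [hDn]
      exact_mod_cast h1
    rw [Finset.card_product] at h2
    push_cast at h2
    calc (m * n) ^ 2 = ((T₁.card : ℝ) * (T₂.card : ℝ)) ^ 2 := by rw [hm, hn]
      _ ≤ _ := h2
      _ ≤ Dn * (4 * m * n + n ^ 2 * Bd) := by
          apply mul_le_mul_of_nonneg_left _ hDn0
          exact_mod_cast henergy
  -- conclusion
  have hW : 4 + Bd ≤ (4 + C₀ * 2 ^ ε) * (N : ℝ) ^ ε := by
    have h1 : Bd = C₀ * 2 ^ ε * (N : ℝ) ^ ε := by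
      rw [hBd]
      push_cast
      rw [Real.mul_rpow (by norm_num) (by positivity)]
      ring
    rw [h1]
    nlinarith
  have hfinal : m * min m n ≤ (4 + Bd) * Dn := by
    rcases hn0.eq_or_lt with h0 | hnpos
    · have : min m n ≤ 0 := by rw [← h0]; exact min_le_right _ _
      have h2 : m * min m n ≤ 0 := mul_nonpos_of_nonneg_of_nonpos hm0 this
      have h3 : 0 ≤ (4 + Bd) * Dn := by positivity
      linarith
    have hcs' : m ^ 2 * n ≤ Dn * (4 * m + n * Bd) := by
      have h1 : n * (m ^ 2 * n) ≤ n * (Dn * (4 * m + n * Bd)) := by nlinarith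
      exact le_of_mul_le_mul_left h1 hnpos
    rcases hm0.eq_or_lt with h0 | hmpos
    · rw [← h0, zero_mul]
      positivity
    rcases le_total n m with hnm | hmn
    · rw [min_eq_right hnm]
      have h1 : 4 * m + n * Bd ≤ m * (4 + Bd) := by nlinarith
      have h2 : m * (m * n) ≤ m * ((4 + Bd) * Dn) := by
        calc m * (m * n) = m ^ 2 * n := by ring
          _ ≤ Dn * (4 * m + n * Bd) := hcs'
          _ ≤ Dn * (m * (4 + Bd)) := mul_le_mul_of_nonneg_left h1 hDn0
          _ = m * ((4 + Bd) * Dn) := by ring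
      exact le_of_mul_le_mul_left h2 hmpos
    · rw [min_eq_left hmn]
      have h1 : 4 * m + n * Bd ≤ n * (4 + Bd) := by nlinarith
      have h2 : n * (m * m) ≤ n * ((4 + Bd) * Dn) := by
        calc n * (m * m) = m ^ 2 * n := by ring
          _ ≤ Dn * (4 * m + n * Bd) := hcs'
          _ ≤ Dn * (n * (4 + Bd)) := mul_le_mul_of_nonneg_left h1 hDn0
          _ = n * ((4 + Bd) * Dn) := by ring
      exact le_of_mul_le_mul_left h2 hnpos
  calc m * min m n ≤ (4 + Bd) * Dn := hfinal
    _ ≤ ((4 + C₀ * 2 ^ ε) * (N : ℝ) ^ ε) * Dn := mul_le_mul_of_nonneg_right hW hDn0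

end Pool.Agent.MP_d807e3_co
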