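import Mathlib
import Pool.Agent.Lib.MP_d807e3_co.Energy

/-!
Distinct distances between points on two lines, when
the points on the first line lie in an arithmetic progression.
-/

namespace Pool.Agent.MP_d807e3_co

open Finset

/-- The Euclidean plane. -/
abbrev Plane := EuclideanSpace ℝ (Fin 2)

/-- The set of distinct distances between a point of `P` and a point of `Q`. -/
noncomputable def distances (P Q : Finset Plane) : Finset ℝ :=
  (P ×ˢ Q).image (fun z => dist z.1 z.2)

lemma dist_sq_eq (a u b v : Plane) (i t : ℝ) :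
    dist (a + i • u) (b + t • v) ^ 2 =
      qf (inner ℝ u u) (inner ℝ u v) (inner ℝ v v) (inner ℝ (a - b) u) (inner ℝ (a - b) v)
        (inner ℝ (a - b) (a - b)) i t := by
  have h0 : a + i • u - (b + t • v) = (a - b) + i • u - t • v := by abel
  rw [dist_eq_norm, h0, ← real_inner_self_eq_norm_sq]
  simp only [inner_sub_left, inner_sub_right, inner_add_left, inner_add_right, inner_smul_left,
    inner_smul_right, qf, RCLike.conj_to_real]
  rw [real_inner_comm u v, real_inner_comm a u, real_inner_comm a v, real_inner_comm b u,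
    real_inner_comm b v, real_inner_comm a b]
  ring

lemma det_pos {u v : Plane} (h : LinearIndependent ℝ ![u, v]) :
    (inner ℝ u v : ℝ) ^ 2 < (inner ℝ u u : ℝ) * (inner ℝ v v : ℝ) := by
  have h1 := LinearIndependent.pair_iff.1 h
  have hv : v ≠ 0 := by
    intro h0
    have := h1 0 1 (by simp [h0])
    exact one_ne_zero this.2
  have hC : 0 < (inner ℝ v v : ℝ) := real_inner_self_pos.2 hv
  set z : Plane := (inner ℝ v v : ℝ) • u - (inner ℝ u v : ℝ) • v with hz
  have hz0 : z ≠ 0 := by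
    intro h0
    have := h1 (inner ℝ v v : ℝ) (-(inner ℝ u v : ℝ)) (by
      rw [neg_smul, ← sub_eq_add_neg]; exact h0)
    exact hC.ne' this.1
  have h2 : 0 < (inner ℝ z z : ℝ) := real_inner_self_pos.2 hz0
  have h3 : (inner ℝ z z : ℝ) =
      (inner ℝ v v : ℝ) * ((inner ℝ u u : ℝ) * (inner ℝ v v : ℝ) - (inner ℝ u v : ℝ) ^ 2) := by
    rw [hz]
    simp only [inner_sub_left, inner_sub_right, inner_smul_left, inner_smul_right,
      RCLike.conj_to_real]
    rw [real_inner_comm u v]
    ring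
  rw [h3] at h2
  have := (mul_pos_iff_of_pos_left hC).1 h2
  linarith

lemma final_step {K x y z : ℝ} (hK : 0 < K) (h : x * y ≤ K * z) : 1 / K * x * y ≤ z := by
  have h1 : 1 / K * x * y = (x * y) / K := by ring
  rw [h1, div_le_iff₀ hK]
  linarith

theorem progression_line {ε : ℝ} (hε : 0 < ε) :
    ∃ c : ℝ, 0 < c ∧ ∀ (a u b v : Plane) (P Q : Finset Plane) (N m : ℕ),
      LinearIndependent ℝ ![u, v] →
      (∀ q ∈ Q, ∃ t : ℝ, q = b + t • v) →
      m ≤ ((Finset.range N).filter (fun i : ℕ => a + (i : ℝ) • u ∈ P)).card →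
      c * m * min (m : ℝ) (Q.card : ℝ) ≤ (N : ℝ) ^ ε * ((distances P Q).card : ℝ) := by
  classical
  obtain ⟨K, hK, hmain⟩ := abstract_count hε
  have hKpos : 0 < K := by linarith
  refine ⟨1 / K, by positivity, ?_⟩
  intro a u b v P Q N m huv hQ hm
  rcases Nat.eq_zero_or_pos N with hN | hN
  · subst hN
    have : m = 0 := by simpa using hm
    subst this
    simp only [Nat.cast_zero, mul_zero, zero_mul]
    positivity
  set T₁ : Finset ℕ := (Finset.range N).filter (fun i : ℕ => a + (i : ℝ) • u ∈ P) with hT₁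
  choose! τ hτ using hQ
  set T₂ : Finset ℝ := Q.image τ with hT₂
  have hcard₂ : T₂.card = Q.card := by
    apply Finset.card_image_of_injOn
    intro q hq q' hq' heq
    rw [hτ q hq, hτ q' hq', heq]
  have hli := LinearIndependent.pair_iff.1 huv
  have hu : u ≠ 0 := by
    intro h0
    have := hli 1 0 (by simp [h0])
    exact one_ne_zero this.1
  have hA : 0 < (inner ℝ u u : ℝ) := real_inner_self_pos.2 hu
  have h1 := hmain N (inner ℝ u u) (inner ℝ u v) (inner ℝ v v) (inner ℝ (a - b) u)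
    (inner ℝ (a - b) v) (inner ℝ (a - b) (a - b)) T₁ T₂ hN hA (det_pos huv)
    (fun i hi => Finset.mem_range.1 (Finset.mem_filter.1 hi).1)
  have h2 : ((T₁ ×ˢ T₂).image (fun z => qf (inner ℝ u u) (inner ℝ u v) (inner ℝ v v)
      (inner ℝ (a - b) u) (inner ℝ (a - b) v) (inner ℝ (a - b) (a - b)) (z.1 : ℝ) z.2)).card ≤
      (distances P Q).card := by
    calc _ ≤ ((distances P Q).image (fun d => d ^ 2)).card := by
          apply Finset.card_le_card
          intro x hx
          obtain ⟨z, hz, rfl⟩ := Finset.mem_image.1 hx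
          obtain ⟨hz1, hz2⟩ := Finset.mem_product.1 hz
          obtain ⟨q, hq, hqz⟩ := Finset.mem_image.1 hz2
          refine Finset.mem_image.2 ⟨dist (a + (z.1 : ℝ) • u) q, ?_, ?_⟩
          · refine Finset.mem_image.2 ⟨(a + (z.1 : ℝ) • u, q), ?_, rfl⟩
            exact Finset.mem_product.2 ⟨(Finset.mem_filter.1 hz1).2, hq⟩
          · exact (congrArg (fun x => dist (a + (z.1 : ℝ) • u) x ^ 2) (hqz ▸ hτ q hq)).trans
              (dist_sq_eq a u b v (z.1 : ℝ) z.2)
      _ ≤ (distances P Q).card := Finset.card_image_le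
  have h2' : ((((T₁ ×ˢ T₂).image (fun z => qf (inner ℝ u u) (inner ℝ u v) (inner ℝ v v)
      (inner ℝ (a - b) u) (inner ℝ (a - b) v) (inner ℝ (a - b) (a - b)) (z.1 : ℝ) z.2)).card : ℕ)
      : ℝ) ≤ ((distances P Q).card : ℝ) := by exact_mod_cast h2
  rw [hcard₂] at h1
  have hNε : 0 ≤ (N : ℝ) ^ ε := by positivity
  have hm' : (m : ℝ) ≤ (T₁.card : ℝ) := by exact_mod_cast hm
  have h3 : (m : ℝ) * min (m : ℝ) (Q.card : ℝ) ≤
      (T₁.card : ℝ) * min (T₁.card : ℝ) (Q.card : ℝ) := by
    exact mul_le_mul hm' (min_le_min_right _ hm')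
      (le_min (Nat.cast_nonneg _) (Nat.cast_nonneg _)) (Nat.cast_nonneg _)
  have h4 : (m : ℝ) * min (m : ℝ) (Q.card : ℝ) ≤
      K * ((N : ℝ) ^ ε * ((distances P Q).card : ℝ)) := by
    calc _ ≤ _ := h3
      _ ≤ _ := h1
      _ ≤ K * (N : ℝ) ^ ε * ((distances P Q).card : ℝ) :=
        mul_le_mul_of_nonneg_left h2' (mul_nonneg hKpos.le hNε)
      _ = _ := by ring
  exact final_step hKpos h4

end Pool.Agent.MP_d807e3_co
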