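import Pool.Agent.Lib.MP_d807e3_co.Mg.G008

/-!
Values of a quadratic form on a product set, one factor of which has small doubling.
-/

namespace Pool.Agent.MP_d807e3_co.OneSided

open Finset
open scoped Pointwise
open Pool.Agent.MP_d807e3_co.Rich Pool.Agent.MP_d807e3_co.Prox
open Pool.Agent.MP_d807e3_co.Struct Pool.Agent.MP_d807e3_co.Comb

/-- The quadratic form. -/
def fm (α β γ : ℝ) (z : ℝ × ℝ) : ℝ := α * z.1 ^ 2 - 2 * β * (z.1 * z.2) + γ * z.2 ^ 2

/-- The sign. -/
noncomputable def sg (e : Bool) : ℝ := if e then 1 else -1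

lemma sg_sq (e : Bool) : sg e * sg e = 1 := by
  cases e <;> simp [sg]

open scoped Classical in
/-- The region. -/
noncomputable def reg (α β γ : ℝ) (z : ℝ × ℝ) : Bool × Bool :=
  (decide (0 < α * z.1 - β * z.2), decide (0 < γ * z.2 - β * z.1))

lemma sign_aux {x y : ℝ} {e : Bool} (hx : decide (0 < x) = e) (hy : decide (0 < y) = e) :
    0 < sg e * (x + y) ∨ (e = false ∧ x = 0 ∧ y = 0) := by
  cases e with
  | true =>
    left
    have h1 := of_decide_eq_true hx
    have h2 := of_decide_eq_true hy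
    simp only [sg, if_true]
    linarith
  | false =>
    have h1 := of_decide_eq_false hx
    have h2 := of_decide_eq_false hy
    by_cases h3 : x + y = 0
    · right
      push Not at h1 h2
      exact ⟨rfl, by linarith, by linarith⟩
    · left
      push Not at h1 h2
      have h4 : x + y < 0 := lt_of_le_of_ne (by linarith) h3
      simp only [sg, Bool.false_eq_true, if_false]
      linarith

/-- The relation of two points of a level. -/
lemma level_rel {α β γ : ℝ} {p q : ℝ × ℝ} (h : fm α β γ p = fm α β γ q) :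
    (q.1 - p.1) * (α * (p.1 + q.1) - β * (p.2 + q.2)) +
      (q.2 - p.2) * (γ * (p.2 + q.2) - β * (p.1 + q.1)) = 0 := by
  unfold fm at h
  linear_combination -h

/-- The hyperbola of two points of a level. -/
lemma level_hyp {α β γ : ℝ} (hα : 0 < α) {p q : ℝ × ℝ} (h : fm α β γ p = fm α β γ q) :
    (p.1 + q.1 - β / α * (p.2 + q.2)) * (q.1 - p.1 - β / α * (q.2 - p.2)) =
      (β ^ 2 - α * γ) / α ^ 2 * ((p.2 + q.2) * (q.2 - p.2)) := by
  have h1 := level_rel h
  have h2 : α ≠ 0 := hα.ne'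
  field_simp
  linear_combination α * h1

lemma level_sign {α β γ : ℝ} (hα : 0 < α) (hγ : 0 < γ) (hdet : β ^ 2 < α * γ) {p q : ℝ × ℝ}
    {e : Bool × Bool} (hp2 : 0 < p.2) (hq2 : 0 < q.2) (hp : reg α β γ p = e)
    (hq : reg α β γ q = e) (h : fm α β γ p = fm α β γ q) (hne : p ≠ q) :
    0 < sg e.1 * (α * (p.1 + q.1) - β * (p.2 + q.2)) ∧
      0 < sg e.2 * (γ * (p.2 + q.2) - β * (p.1 + q.1)) := by
  have h0 := level_rel h
  have hp1 : decide (0 < α * p.1 - β * p.2) = e.1 := by rw [← hp]; simp [reg]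
  have hp2' : decide (0 < γ * p.2 - β * p.1) = e.2 := by rw [← hp]; simp [reg]
  have hq1 : decide (0 < α * q.1 - β * q.2) = e.1 := by rw [← hq]; simp [reg]
  have hq2' : decide (0 < γ * q.2 - β * q.1) = e.2 := by rw [← hq]; simp [reg]
  have e1 : α * p.1 - β * p.2 + (α * q.1 - β * q.2) = α * (p.1 + q.1) - β * (p.2 + q.2) := by ring
  have e2 : γ * p.2 - β * p.1 + (γ * q.2 - β * q.1) = γ * (p.2 + q.2) - β * (p.1 + q.1) := by ring
  have hs1 := sign_aux hp1 hq1
  have hs2 := sign_aux hp2' hq2'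
  rw [e1] at hs1
  rw [e2] at hs2
  have hnot : ¬ (α * (p.1 + q.1) - β * (p.2 + q.2) = 0 ∧
      γ * (p.2 + q.2) - β * (p.1 + q.1) = 0) := by
    rintro ⟨k1, k2⟩
    have k3 : (p.2 + q.2) * (α * γ - β ^ 2) = 0 := by linear_combination β * k1 + α * k2
    rcases mul_eq_zero.1 k3 with k4 | k4 <;> linarith
  rcases hs1 with hs1 | ⟨-, hx, hy⟩
  · refine ⟨hs1, ?_⟩
    rcases hs2 with hs2 | ⟨-, hx2, hy2⟩
    · exact hs2
    · exfalso
      have k1 : γ * (p.2 + q.2) - β * (p.1 + q.1) = 0 := by linarith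
      rw [k1, mul_zero, add_zero] at h0
      rcases mul_eq_zero.1 h0 with k2 | k2
      · apply hne
        have k3 : p.1 = q.1 := by linarith
        have k4 : γ * (p.2 - q.2) = 0 := by
          rw [k3] at hx2
          linarith
        rcases mul_eq_zero.1 k4 with k5 | k5
        · linarith
        · exact Prod.ext k3 (by linarith)
      · exact hnot ⟨k2, k1⟩
  · exfalso
    have k1 : α * (p.1 + q.1) - β * (p.2 + q.2) = 0 := by linarith
    rw [k1, mul_zero, zero_add] at h0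
    rcases mul_eq_zero.1 h0 with k2 | k2
    · apply hne
      have k3 : p.2 = q.2 := by linarith
      have k4 : α * (p.1 - q.1) = 0 := by
        rw [k3] at hx
        linarith
      rcases mul_eq_zero.1 k4 with k5 | k5
      · linarith
      · exact Prod.ext (by linarith) k3
    · exact hnot ⟨k1, k2⟩

/-- The part of the grid in the region `e`. -/
noncomputable def gr (α β γ : ℝ) (A B : Finset ℝ) (e : Bool × Bool) : Finset (ℝ × ℝ) :=
  (A ×ˢ B).filter (fun z => reg α β γ z = e)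

lemma mem_gr {α β γ : ℝ} {A B : Finset ℝ} {e : Bool × Bool} {z : ℝ × ℝ} :
    z ∈ gr α β γ A B e ↔ z.1 ∈ A ∧ z.2 ∈ B ∧ reg α β γ z = e := by
  unfold gr
  rw [Finset.mem_filter, Finset.mem_product, and_assoc]

lemma gr_large (α β γ : ℝ) (A B : Finset ℝ) : ∃ e, A.card * B.card ≤ 4 * (gr α β γ A B e).card := by
  by_contra hcon
  push Not at hcon
  have h1 : (A ×ˢ B).card = ∑ e : Bool × Bool, (gr α β γ A B e).card :=
    Finset.card_eq_sum_card_fiberwise (f := reg α β γ) (t := Finset.univ)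
      (fun z _ => Finset.mem_coe.2 (Finset.mem_univ _))
  rw [Finset.card_product, Fintype.sum_prod_type] at h1
  simp only [Fintype.sum_bool] at h1
  have k1 := hcon (true, true)
  have k2 := hcon (true, false)
  have k3 := hcon (false, true)
  have k4 := hcon (false, false)
  omega

section

variable {α β γ : ℝ} (hα : 0 < α) (hγ : 0 < γ) (hdet : β ^ 2 < α * γ) {A B : Finset ℝ}
  (hB : ∀ b ∈ B, 0 < b) (e : Bool × Bool)

include hα hγ hdet hB

lemma gr_inj : ∀ p ∈ gr α β γ A B e, ∀ q ∈ gr α β γ A B e, fm α β γ p = fm α β γ q →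
    p.1 = q.1 → p = q := by
  intro p hp q hq h h1
  by_contra hne
  obtain ⟨p1, p2, p3⟩ := mem_gr.1 hp
  obtain ⟨q1, q2, q3⟩ := mem_gr.1 hq
  have h2 := (level_sign hα hγ hdet (hB _ p2) (hB _ q2) p3 q3 h hne).2
  have h3 := level_rel h
  rw [h1, sub_self, zero_mul, zero_add] at h3
  rcases mul_eq_zero.1 h3 with h4 | h4
  · exact hne (Prod.ext h1 (by linarith))
  · rw [h1] at h2
    rw [h4, mul_zero] at h2
    exact lt_irrefl _ h2

lemma gr_mono : ∀ p ∈ gr α β γ A B e, ∀ q ∈ gr α β γ A B e, fm α β γ p = fm α β γ q →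
    p.1 < q.1 → -(sg e.1 * sg e.2) * p.2 < -(sg e.1 * sg e.2) * q.2 := by
  intro p hp q hq h h1
  have hne : p ≠ q := fun h0 => by rw [h0] at h1; exact lt_irrefl _ h1
  obtain ⟨p1, p2, p3⟩ := mem_gr.1 hp
  obtain ⟨q1, q2, q3⟩ := mem_gr.1 hq
  obtain ⟨h2, h2'⟩ := level_sign hα hγ hdet (hB _ p2) (hB _ q2) p3 q3 h hne
  have h3 := level_rel h
  set X := α * (p.1 + q.1) - β * (p.2 + q.2) with hX
  set Y := γ * (p.2 + q.2) - β * (p.1 + q.1) with hY
  have e1 := sg_sq e.1
  have e2 := sg_sq e.2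
  have h4 : (-(sg e.1 * sg e.2) * (q.2 - p.2)) * (sg e.2 * Y) = (q.1 - p.1) * (sg e.1 * X) := by
    have : (-(sg e.1 * sg e.2) * (q.2 - p.2)) * (sg e.2 * Y) =
      -(sg e.1 * (sg e.2 * sg e.2)) * ((q.2 - p.2) * Y) := by ring
    rw [this, e2]
    linear_combination -sg e.1 * h3
  have h5 : 0 < (-(sg e.1 * sg e.2) * (q.2 - p.2)) * (sg e.2 * Y) := by
    rw [h4]
    exact mul_pos (by linarith) h2
  have h6 := (mul_pos_iff_of_pos_right h2').1 h5
  linarith

end

/-- The pairs of elements of `B` which are close in the order given by the sign `η`. -/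
noncomputable def clo (B : Finset ℝ) (η L : ℝ) : Finset (ℝ × ℝ) :=
  (B ×ˢ B).filter (fun v => η * v.1 < η * v.2 ∧
    ((B.filter (fun b => η * v.1 < η * b ∧ η * b ≤ η * v.2)).card : ℝ) ≤ L)

lemma mem_clo {B : Finset ℝ} {η L : ℝ} {v : ℝ × ℝ} :
    v ∈ clo B η L ↔ v.1 ∈ B ∧ v.2 ∈ B ∧ η * v.1 < η * v.2 ∧
      ((B.filter (fun b => η * v.1 < η * b ∧ η * b ≤ η * v.2)).card : ℝ) ≤ L := by
  unfold clo
  rw [Finset.mem_filter, Finset.mem_product, and_assoc]

lemma card_clo_le (B : Finset ℝ) (η : ℝ) {L : ℝ} (hL : 0 ≤ L) :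
    ((clo B η L).card : ℝ) ≤ L * B.card := by
  classical
  have h1 : (clo B η L).card = ∑ b ∈ B, ((clo B η L).filter (fun v => v.1 = b)).card :=
    Finset.card_eq_sum_card_fiberwise (fun v hv => Finset.mem_coe.2
      (mem_clo.1 (Finset.mem_coe.1 hv)).1)
  have h2 : ∀ b ∈ B, (((clo B η L).filter (fun v => v.1 = b)).card : ℝ) ≤ L := by
    intro b _
    rcases ((clo B η L).filter (fun v => v.1 = b)).eq_empty_or_nonempty with h0 | h0
    · rw [h0, Finset.card_empty, Nat.cast_zero]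
      exact hL
    · obtain ⟨w, hw, hmax⟩ := Finset.exists_max_image _ (fun v => η * v.2) h0
      obtain ⟨hw1, hw2⟩ := Finset.mem_filter.1 hw
      obtain ⟨k1, k2, k3, k4⟩ := mem_clo.1 hw1
      refine le_trans ?_ k4
      have h3 : ((clo B η L).filter (fun v => v.1 = b)).card ≤
          (B.filter (fun b => η * w.1 < η * b ∧ η * b ≤ η * w.2)).card := by
        refine Finset.card_le_card_of_injOn (fun v => v.2) ?_ ?_
        · intro v hv
          obtain ⟨hv1, hv2⟩ := Finset.mem_filter.1 (Finset.mem_coe.1 hv)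
          obtain ⟨j1, j2, j3, j4⟩ := mem_clo.1 hv1
          refine Finset.mem_coe.2 (Finset.mem_filter.2 ⟨j2, ?_, ?_⟩)
          · rw [hw2, ← hv2]
            exact j3
          · exact hmax v (Finset.mem_coe.1 hv)
        · intro v hv v' hv' hvv
          have e1 := (Finset.mem_filter.1 (Finset.mem_coe.1 hv)).2
          have e2 := (Finset.mem_filter.1 (Finset.mem_coe.1 hv')).2
          exact Prod.ext (by rw [e1, e2]) hvv
      exact_mod_cast h3
  rw [h1]
  push_cast
  calc _ ≤ ∑ _b ∈ B, L := Finset.sum_le_sum h2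
    _ = L * B.card := by rw [Finset.sum_const, nsmul_eq_mul, mul_comm]

/-- The final computation. -/
lemma final_num {K a b g d v s t s' t' X k R V : ℝ} (hK : 1 ≤ K) (ha : 0 < a) (hb : 0 < b)
    (hd : 0 < d) (hg : 0 < g) (hab : a * b ≤ 4 * g) (hX : g ≤ 2 * X) (hv0 : 0 < v)
    (hR : R * g = 8 * d * K * a ^ 2) (hV : V * g = 8 * d * b ^ 2)
    (hv : v ≤ V) (hk : X ≤ 4 * v * k) (hk0 : 0 ≤ k) (hkv : 2 * (k * v) ≤ X)
    (ht : R ≤ 2 * (s * t)) (hs' : 0 ≤ s') (ht' : 0 ≤ t') (hst : s' * t' ≤ 5 * K ^ 9 * R)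
    (hmain : (X - k * v) * (s * t) * k ^ 3 ≤ 2 ^ 31 * (s' * t') ^ 3) :
    a ^ 5 * b ^ 3 ≤ 2 ^ 83 * K ^ 29 * d ^ 5 := by
  have hK0 : 0 < K := by linarith
  have hX0 : 0 < X := by linarith
  have hR0 : 0 < R := by
    have h1 : 0 < R * g := by rw [hR]; positivity
    exact (mul_pos_iff_of_pos_right hg).1 h1
  have hV0 : 0 < V := by linarith
  -- step 1
  have e1 : (X / 2) * (R / 2) ≤ (X - k * v) * (s * t) :=
    mul_le_mul (by linarith) (by linarith) (by positivity) (by nlinarith)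
  have e2 : X ^ 3 ≤ (4 * v * k) ^ 3 := pow_le_pow_left₀ hX0.le hk 3
  have e3 : (s' * t') ^ 3 ≤ (5 * K ^ 9 * R) ^ 3 :=
    pow_le_pow_left₀ (mul_nonneg hs' ht') hst 3
  have e4 : v ^ 3 ≤ V ^ 3 := pow_le_pow_left₀ hv0.le hv 3
  have e5 : X ^ 4 * R ≤ (2 ^ 39 * 125 * K ^ 27 * R ^ 2 * V ^ 3) * R := by
    calc X ^ 4 * R = (X * R) * X ^ 3 := by ring
      _ ≤ (X * R) * (4 * v * k) ^ 3 := mul_le_mul_of_nonneg_left e2 (by positivity)
      _ = 256 * v ^ 3 * (((X / 2) * (R / 2)) * k ^ 3) := by ring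
      _ ≤ 256 * v ^ 3 * (((X - k * v) * (s * t)) * k ^ 3) := by gcongr
      _ ≤ 256 * v ^ 3 * (2 ^ 31 * (s' * t') ^ 3) := mul_le_mul_of_nonneg_left hmain (by positivity)
      _ ≤ 256 * V ^ 3 * (2 ^ 31 * (5 * K ^ 9 * R) ^ 3) := by gcongr
      _ = _ := by ring
  have e6 : X ^ 4 ≤ 2 ^ 39 * 125 * K ^ 27 * R ^ 2 * V ^ 3 := le_of_mul_le_mul_right e5 hR0
  have e7 : g ^ 9 ≤ 2 ^ 58 * 125 * K ^ 29 * d ^ 5 * (a ^ 4 * b ^ 6) := by
    calc g ^ 9 = g ^ 4 * g ^ 5 := by ring
      _ ≤ (2 * X) ^ 4 * g ^ 5 := by gcongr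
      _ = 16 * (X ^ 4 * g ^ 5) := by ring
      _ ≤ 16 * ((2 ^ 39 * 125 * K ^ 27 * R ^ 2 * V ^ 3) * g ^ 5) := by gcongr
      _ = 2 ^ 43 * 125 * K ^ 27 * (R * g) ^ 2 * (V * g) ^ 3 := by ring
      _ = _ := by rw [hR, hV]; ring
  have e8 : (a * b) ^ 9 ≤ (4 * g) ^ 9 := pow_le_pow_left₀ (by positivity) hab 9
  have e9 : (a ^ 4 * b ^ 6) * (a ^ 5 * b ^ 3) ≤ (a ^ 4 * b ^ 6) * (2 ^ 83 * K ^ 29 * d ^ 5) := by
    calc (a ^ 4 * b ^ 6) * (a ^ 5 * b ^ 3) = (a * b) ^ 9 := by ring
      _ ≤ (4 * g) ^ 9 := e8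
      _ = 2 ^ 18 * g ^ 9 := by ring
      _ ≤ 2 ^ 18 * (2 ^ 58 * 125 * K ^ 29 * d ^ 5 * (a ^ 4 * b ^ 6)) := by gcongr
      _ = (2 ^ 76 * 125) * (K ^ 29 * d ^ 5 * (a ^ 4 * b ^ 6)) := by ring
      _ ≤ 2 ^ 83 * (K ^ 29 * d ^ 5 * (a ^ 4 * b ^ 6)) := by
          refine mul_le_mul_of_nonneg_right (by norm_num) (by positivity)
      _ = _ := by ring
  exact le_of_mul_le_mul_left e9 (by positivity)

/-- The three cases, for positive second coordinates. -/
theorem main_pos {α β γ : ℝ} (hα : 0 < α) (hγ : 0 < γ) (hβ : β ≠ 0) (hdet : β ^ 2 < α * γ)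
    (A B : Finset ℝ) (hB : ∀ b ∈ B, 0 < b) (hA0 : A.Nonempty) (hB0 : B.Nonempty) (K : ℝ)
    (hK : ((A + A).card : ℝ) ≤ K * A.card) {D : ℕ}
    (hD : ((A ×ˢ B).image (fm α β γ)).card ≤ D) :
    (A.card : ℝ) * B.card ≤ 64 * K * D ∨ (A.card : ℝ) ^ 2 ≤ 8192 * D ∨
      (A.card : ℝ) ^ 5 * (B.card : ℝ) ^ 3 ≤ 2 ^ 83 * K ^ 29 * (D : ℝ) ^ 5 := by
  classical
  have ha : (0 : ℝ) < A.card := by exact_mod_cast Finset.card_pos.2 hA0
  have hb : (0 : ℝ) < B.card := by exact_mod_cast Finset.card_pos.2 hB0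
  have hAA : (A.card : ℝ) ≤ (A + A).card := by exact_mod_cast Finset.card_le_card_add_left hA0
  have hK1 : 1 ≤ K := by
    by_contra hc
    push Not at hc
    have := mul_lt_mul_of_pos_right hc ha
    linarith
  obtain ⟨e, he⟩ := gr_large α β γ A B
  set G := gr α β γ A B e with hG
  set f := fm α β γ with hf
  have hinj := gr_inj (A := A) hα hγ hdet hB e
  rw [← hG, ← hf] at hinj
  have hab : (A.card : ℝ) * B.card ≤ 4 * G.card := by exact_mod_cast he
  have hg : (0 : ℝ) < G.card := by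
    have := mul_pos ha hb
    linarith
  have hGD : (G.image f).card ≤ D :=
    (Finset.card_le_card (Finset.image_subset_image (Finset.filter_subset _ _))).trans hD
  by_cases h16 : 16 * K * D ≤ G.card
  swap
  · left
    push Not at h16
    linarith
  -- `|G| ≤ |A| D`
  have hGA : (G.card : ℝ) ≤ A.card * D := by
    have h1 : G.card ≤ A.card * (G.image f).card := by
      rw [← Finset.card_product]
      refine Finset.card_le_card_of_injOn (fun p => (p.1, f p)) ?_ ?_
      · intro p hp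
        have hp' := Finset.mem_coe.1 hp
        exact Finset.mem_coe.2 (Finset.mem_product.2 ⟨(mem_gr.1 hp').1,
          Finset.mem_image_of_mem f hp'⟩)
      · intro p hp q hq hpq
        simp only [Prod.mk.injEq] at hpq
        exact hinj p (Finset.mem_coe.1 hp) q (Finset.mem_coe.1 hq) hpq.2 hpq.1
    have h2 : G.card ≤ A.card * D := h1.trans (Nat.mul_le_mul_left _ hGD)
    exact_mod_cast h2
  have hd : (0 : ℝ) < D := by
    by_contra hc
    push Not at hc
    have := mul_nonpos_of_nonneg_of_nonpos ha.le hc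
    linarith
  set a : ℝ := (A.card : ℝ) with hadef
  set b : ℝ := (B.card : ℝ) with hbdef
  set g : ℝ := (G.card : ℝ) with hgdef
  set d : ℝ := (D : ℝ) with hddef
  have hK0 : 0 < K := by linarith
  set R : ℝ := 8 * d * K * a ^ 2 / g with hRdef
  have hRg : R * g = 8 * d * K * a ^ 2 := by rw [hRdef]; field_simp
  have hR0 : 0 < R := by rw [hRdef]; positivity
  set L : ℝ := 8 * d * b / g with hLdef
  have hLg : L * g = 8 * d * b := by rw [hLdef]; field_simp
  have hL0 : 0 < L := by rw [hLdef]; positivity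
  have hR1 : 8 * K * a ≤ R := by
    refine le_of_mul_le_mul_right ?_ hg
    rw [hRg]
    calc 8 * K * a * g ≤ 8 * K * a * (a * d) := mul_le_mul_of_nonneg_left hGA (by positivity)
      _ = _ := by ring
  have hR2 : R ≤ a ^ 2 / 2 := by
    refine le_of_mul_le_mul_right ?_ hg
    rw [hRg]
    calc 8 * d * K * a ^ 2 = (16 * K * d) * (a ^ 2 / 2) := by ring
      _ ≤ g * (a ^ 2 / 2) := mul_le_mul_of_nonneg_right h16 (by positivity)
      _ = _ := by ring
  have haK : 1 * a ≤ K * a := mul_le_mul_of_nonneg_right hK1 ha.le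
  have ha16 : 16 ≤ a := by
    have h2 : 16 * a ≤ a * a := by
      rw [← pow_two]
      linarith
    exact le_of_mul_le_mul_right h2 ha
  have hRa : a ≤ R / 8 := by linarith
  have hR3 : R ≤ 2 * a * (a - 1) := by
    have h2 : 16 * a ≤ a * a := mul_le_mul_of_nonneg_right ha16 ha.le
    have h3 : 2 * a * (a - 1) = 2 * (a * a) - 2 * a := by ring
    rw [h3]
    rw [pow_two] at hR2
    linarith
  -- the two kinds of bad pairs
  set η : ℝ := -(sg e.1 * sg e.2) with hη
  have hmono := gr_mono (A := A) hα hγ hdet hB e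
  rw [← hG, ← hf, ← hη] at hmono
  have hcon := con_count hinj
  have hbad1 := con_bad hinj Prod.fst (fun _ _ _ _ _ h => h) (A ×ˢ (A + A))
    (fun m => m.2 - m.1) R
  have hbad2 := con_bad hinj (fun z => η * z.2) hmono B (fun x => η * x) L
  set P1 : (ℝ × ℝ) × (ℝ × ℝ) → Prop := fun z =>
    R < (((A ×ˢ (A + A)).filter (fun m => z.1.1 < m.2 - m.1 ∧ m.2 - m.1 ≤ z.2.1)).card : ℝ)
    with hP1
  set P2 : (ℝ × ℝ) × (ℝ × ℝ) → Prop := fun z =>
    L < ((B.filter (fun m => η * z.1.2 < η * m ∧ η * m ≤ η * z.2.2)).card : ℝ) with hP2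
  set C := con G f with hC
  have hb1 : 8 * ((C.filter P1).card : ℝ) ≤ g := by
    have h1 : ((C.filter P1).card : ℝ) * R ≤ d * (a * (K * a)) := by
      refine hbad1.trans ?_
      rw [Finset.card_product]
      push_cast
      have h2 : ((G.image f).card : ℝ) ≤ d := by
        rw [hddef]
        exact_mod_cast hGD
      gcongr
    refine le_of_mul_le_mul_right ?_ hR0
    calc 8 * ((C.filter P1).card : ℝ) * R = 8 * (((C.filter P1).card : ℝ) * R) := by ring
      _ ≤ 8 * (d * (a * (K * a))) := mul_le_mul_of_nonneg_left h1 (by norm_num)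
      _ = R * g := by rw [hRg]; ring
      _ = _ := by ring
  have hb2 : 8 * ((C.filter P2).card : ℝ) ≤ g := by
    have h1 : ((C.filter P2).card : ℝ) * L ≤ d * b := by
      refine hbad2.trans ?_
      have h2 : ((G.image f).card : ℝ) ≤ d := by
        rw [hddef]
        exact_mod_cast hGD
      gcongr
    refine le_of_mul_le_mul_right ?_ hL0
    calc 8 * ((C.filter P2).card : ℝ) * L = 8 * (((C.filter P2).card : ℝ) * L) := by ring
      _ ≤ 8 * (d * b) := mul_le_mul_of_nonneg_left h1 (by norm_num)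
      _ = L * g := by rw [hLg]; ring
      _ = _ := by ring
  set W := C.filter (fun z => ¬ P1 z ∧ ¬ P2 z) with hW
  have hWcard : C.card ≤ (C.filter P1).card + (C.filter P2).card + W.card := by
    have h1 : C ⊆ C.filter P1 ∪ C.filter P2 ∪ W := by
      intro z hz
      by_cases h2 : P1 z
      · exact Finset.mem_union_left _ (Finset.mem_union_left _ (Finset.mem_filter.2 ⟨hz, h2⟩))
      · by_cases h3 : P2 z
        · exact Finset.mem_union_left _ (Finset.mem_union_right _ (Finset.mem_filter.2 ⟨hz, h3⟩))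
        · exact Finset.mem_union_right _ (Finset.mem_filter.2 ⟨hz, h2, h3⟩)
    exact (Finset.card_le_card h1).trans ((Finset.card_union_le _ _).trans
      (Nat.add_le_add_right (Finset.card_union_le _ _) _))
  have hXg : g ≤ 2 * (W.card : ℝ) := by
    have h1 : g ≤ (C.card : ℝ) + d := by
      have h2 : G.card ≤ C.card + D := hcon.trans (Nat.add_le_add_left hGD _)
      rw [hgdef, hddef]
      exact_mod_cast h2
    have h2 : (C.card : ℝ) ≤ (C.filter P1).card + (C.filter P2).card + W.card := by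
      exact_mod_cast hWcard
    have h3 : 16 * d ≤ g := by
      have := mul_le_mul_of_nonneg_right hK1 hd.le
      linarith
    linarith
  -- the hyperbolas
  set S := A + A with hS
  set T := sd A R with hT
  set V := clo B η L with hV
  set l := β / α with hl
  set κ := (β ^ 2 - α * γ) / α ^ 2 with hκ
  have hl0 : l ≠ 0 := div_ne_zero hβ hα.ne'
  have hκ0 : κ ≠ 0 := div_ne_zero (by linarith) (pow_ne_zero 2 hα.ne')
  have hVB : (V.card : ℝ) ≤ L * b := card_clo_le B η hL0.le
  have hinc : W.card ≤ ∑ v ∈ V, (pts S T (hyp l κ v)).card := by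
    have h1 : ∑ v ∈ V, (pts S T (hyp l κ v)).card =
        (V.sigma (fun v => pts S T (hyp l κ v))).card := by rw [Finset.card_sigma]
    rw [h1]
    refine Finset.card_le_card_of_injOn
      (fun z => ⟨(z.1.2, z.2.2), (z.1.1 + z.2.1, z.2.1 - z.1.1)⟩) ?_ ?_
    · intro z hz
      obtain ⟨hzC, hz1, hz2⟩ := Finset.mem_filter.1 (Finset.mem_coe.1 hz)
      obtain ⟨k1, k2, k3, k4, -⟩ := mem_con.1 hzC
      obtain ⟨p1, p2, p3⟩ := mem_gr.1 k1
      obtain ⟨q1, q2, q3⟩ := mem_gr.1 k2
      have hz1' := not_lt.1 hz1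
      have hz2' := not_lt.1 hz2
      refine Finset.mem_coe.2 (Finset.mem_sigma.2 ⟨mem_clo.2 ⟨p2, q2, ?_, hz2'⟩,
        mem_pts.2 ⟨Finset.add_mem_add p1 q1, mem_sd.2 ⟨Finset.sub_mem_sub q1 p1, ?_, ?_⟩, ?_⟩⟩)
      · show η * z.1.2 < η * z.2.2
        exact hmono z.1 k1 z.2 k2 k3 k4
      · exact sub_pos.2 k4
      · refine le_trans ?_ hz1'
        have h2 : rho A (z.2.1 - z.1.1) ≤ ((A ×ˢ (A + A)).filter
            (fun m => z.1.1 < m.2 - m.1 ∧ m.2 - m.1 ≤ z.2.1)).card := by
          unfold rho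
          refine Finset.card_le_card_of_injOn (fun x => (x.1, z.1.1 + x.2)) ?_ ?_
          · intro x hx
            obtain ⟨j1, j2, j3⟩ := Finset.mem_filter.1 (Finset.mem_coe.1 hx)
            obtain ⟨j4, j5⟩ := Finset.mem_product.1 j1
            refine Finset.mem_coe.2 (Finset.mem_filter.2 ⟨Finset.mem_product.2
              ⟨j4, Finset.add_mem_add p1 j5⟩, ?_, ?_⟩)
            · show z.1.1 < z.1.1 + x.2 - x.1
              linarith
            · show z.1.1 + x.2 - x.1 ≤ z.2.1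
              linarith
          · intro x _ y _ hxy
            simp only [Prod.mk.injEq, add_right_inj] at hxy
            exact Prod.ext hxy.1 hxy.2
        exact_mod_cast h2
      · show (z.1.1 + z.2.1 - l * (z.1.2 + z.2.2)) * (z.2.1 - z.1.1 - l * (z.2.2 - z.1.2)) =
          κ * ((z.1.2 + z.2.2) * (z.2.2 - z.1.2))
        exact level_hyp hα k3
    · intro z _ z' _ h
      simp only [Sigma.mk.injEq, Prod.mk.injEq, heq_eq_eq] at h
      obtain ⟨⟨h2, h3⟩, h4, h5⟩ := h
      refine Prod.ext (Prod.ext ?_ h2) (Prod.ext ?_ h3) <;> linarith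
  have hW0 : (0 : ℝ) < W.card := by linarith
  have hV0 : 0 < V.card := by
    by_contra hc
    have h1 : V = ∅ := Finset.card_eq_zero.1 (by omega)
    rw [h1, Finset.sum_empty] at hinc
    have h2 : (W.card : ℝ) ≤ 0 := by exact_mod_cast hinc
    linarith
  have hv0 : (0 : ℝ) < V.card := by exact_mod_cast hV0
  set k := W.card / (2 * V.card) with hk
  have hk1 : k * (2 * V.card) ≤ W.card := Nat.div_mul_le_self _ _
  have hk2 : W.card < (k + 1) * (2 * V.card) := by
    rw [Nat.add_mul, one_mul, mul_comm k]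
    have := Nat.div_add_mod W.card (2 * V.card)
    have h3 := Nat.mod_lt W.card (show 0 < 2 * V.card by omega)
    rw [← hk] at this
    omega
  have hk1' : (k : ℝ) * (2 * V.card) ≤ W.card := by exact_mod_cast hk1
  have hk2' : (W.card : ℝ) < (k + 1) * (2 * V.card) := by exact_mod_cast hk2
  by_cases hk16 : 16 ≤ k
  swap
  · right
    left
    have h1 : (k : ℝ) + 1 ≤ 16 := by
      have : k + 1 ≤ 16 := by omega
      exact_mod_cast this
    have h2 : g ≤ 64 * (L * b) := by
      have h3 : ((k : ℝ) + 1) * (2 * V.card) ≤ 16 * (2 * V.card) :=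
        mul_le_mul_of_nonneg_right h1 (by positivity)
      linarith
    have h3 : g * g ≤ 512 * d * b ^ 2 := by
      calc g * g ≤ (64 * (L * b)) * g := mul_le_mul_of_nonneg_right h2 hg.le
        _ = 64 * b * (L * g) := by ring
        _ = _ := by rw [hLg]; ring
    have h4 : (a * b) * (a * b) ≤ (4 * g) * (4 * g) :=
      mul_le_mul hab hab (by positivity) (by positivity)
    have h5 : b ^ 2 * a ^ 2 ≤ b ^ 2 * (8192 * d) := by
      calc b ^ 2 * a ^ 2 = (a * b) * (a * b) := by ring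
        _ ≤ (4 * g) * (4 * g) := h4
        _ = 16 * (g * g) := by ring
        _ ≤ 16 * (512 * d * b ^ 2) := by linarith
        _ = _ := by ring
    exact le_of_mul_le_mul_left h5 (by positivity)
  · right
    right
    have hk16' : (16 : ℝ) ≤ k := by exact_mod_cast hk16
    have hamp := amplify (S' := S + S) (T' := T + T) (Finset.Subset.refl _)
      (Finset.Subset.refl _) hl0 hκ0 V (by
        intro v hv
        obtain ⟨j1, j2, j3, -⟩ := mem_clo.1 hv
        refine ⟨?_, ?_⟩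
        · have := hB _ j1
          have := hB _ j2
          linarith
        · intro h0
          have : v.2 = v.1 := by linarith
          rw [this] at j3
          exact lt_irrefl _ j3) hk16
    have hlow := sd_lower A (R := R) (by linarith) hR3
    have hup := sd_upper A hA0 hR0.le hK
    have hS4 := (pluennecke5 A K hK).2
    have hmainX : ((W.card : ℝ) - k * V.card) * ((S.card : ℝ) * T.card) * (k : ℝ) ^ 3 ≤
        2 ^ 31 * (((S + S).card : ℝ) * (T + T).card) ^ 3 := by
      refine le_trans ?_ hamp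
      have h1 : (W.card : ℝ) ≤ ((∑ v ∈ V, (pts S T (hyp l κ v)).card : ℕ) : ℝ) := by
        exact_mod_cast hinc
      gcongr
    refine final_num (a := a) (b := b) (g := g) (d := d) (v := V.card) (s := S.card)
      (t := T.card) (s' := (S + S).card) (t' := (T + T).card) (X := W.card) (k := k) (R := R)
      (V := L * b) hK1 ha hb hd hg hab hXg hv0 hRg ?_ hVB ?_ (Nat.cast_nonneg _) ?_ ?_
      (Nat.cast_nonneg _) (Nat.cast_nonneg _) ?_ hmainX
    · calc L * b * g = (L * g) * b := by ring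
        _ = _ := by rw [hLg]; ring
    · have h1 : ((k : ℝ) + 1) * (2 * V.card) ≤ (2 * k) * (2 * V.card) :=
        mul_le_mul_of_nonneg_right (by linarith) (by positivity)
      linarith
    · linarith
    · calc R ≤ 2 * (a * T.card) := hlow
        _ ≤ 2 * (S.card * T.card) := by gcongr
    · have h1 : ((S + S).card : ℝ) * (T + T).card ≤ K ^ 4 * (a * (T + T).card) := by
        calc ((S + S).card : ℝ) * (T + T).card ≤ (K ^ 4 * a) * (T + T).card := by gcongr
          _ = _ := by ring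
      calc ((S + S).card : ℝ) * (T + T).card ≤ K ^ 4 * (a * (T + T).card) := h1
        _ ≤ K ^ 4 * (2 * (K ^ 5 * (a + 2 * R))) := by gcongr
        _ = 2 * K ^ 9 * (a + 2 * R) := by ring
        _ ≤ 2 * K ^ 9 * (R / 8 + 2 * R) := by gcongr
        _ ≤ 5 * K ^ 9 * R := by
            have : 0 ≤ K ^ 9 * R := by positivity
            linarith

end Pool.Agent.MP_d807e3_co.OneSided
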