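import Mathlib

/-!
The multiplicative energy of a product set is controlled by sumsets (Solymosi's argument,
weighted form for two sets).
-/

namespace Pool.Agent.MP_d807e3_co.Sol

open Finset
open scoped Pointwise

/-- Points of `P × U` on the line of slope `X` through the origin. -/
noncomputable def rep (U P : Finset ℝ) (X : ℝ) : Finset (ℝ × ℝ) :=
  (P ×ˢ U).filter (fun z => z.2 = X * z.1)

lemma mem_rep {U P : Finset ℝ} {X : ℝ} {z : ℝ × ℝ} :
    z ∈ rep U P X ↔ z.1 ∈ P ∧ z.2 ∈ U ∧ z.2 = X * z.1 := by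
  unfold rep
  rw [Finset.mem_filter, Finset.mem_product]
  tauto

/-- Sums of points on lines with consecutive slopes are distinct. -/
lemma consecutive (U P : Finset ℝ) (hP : ∀ p ∈ P, 0 < p) (τ : ℕ) (S : Finset ℝ)
    (hS : ∀ X ∈ S, τ ≤ (rep U P X).card) :
    ∃ Z : Finset (ℝ × ℝ), Z ⊆ (P + P) ×ˢ (U + U) ∧ (S.card - 1) * τ ^ 2 ≤ Z.card ∧
      ∀ z ∈ Z, 0 < z.1 ∧ ∃ X ∈ S, z.2 < X * z.1 := by
  classical
  induction S using Finset.induction_on_max with
  | empty => exact ⟨∅, by simp, by simp, by simp⟩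
  | insert a S ha ih =>
    have haS : a ∉ S := fun h => lt_irrefl _ (ha a h)
    obtain ⟨Z, hZ1, hZ2, hZ3⟩ := ih (fun X hX => hS X (Finset.mem_insert_of_mem hX))
    rcases S.eq_empty_or_nonempty with hS0 | hS0
    · subst hS0
      exact ⟨∅, by simp, by simp, by simp⟩
    set X₀ := S.max' hS0 with hX₀
    have hX₀S : X₀ ∈ S := S.max'_mem hS0
    have hX₀a : X₀ < a := ha _ hX₀S
    set W : Finset (ℝ × ℝ) :=
      (rep U P X₀ ×ˢ rep U P a).image (fun w => w.1 + w.2) with hW
    have hWmem : ∀ w ∈ W, 0 < w.1 ∧ X₀ * w.1 < w.2 ∧ w.2 < a * w.1 ∧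
        w ∈ (P + P) ×ˢ (U + U) := by
      intro w hw
      obtain ⟨⟨z, y⟩, hzy, rfl⟩ := Finset.mem_image.1 hw
      obtain ⟨hz, hy⟩ := Finset.mem_product.1 hzy
      obtain ⟨hz1, hz2, hz3⟩ := mem_rep.1 hz
      obtain ⟨hy1, hy2, hy3⟩ := mem_rep.1 hy
      have p1 := hP _ hz1
      have p2 := hP _ hy1
      simp only [Prod.fst_add, Prod.snd_add] at *
      refine ⟨by linarith, ?_, ?_, ?_⟩
      · rw [hz3, hy3]; nlinarith
      · rw [hz3, hy3]; nlinarith
      · exact Finset.mem_product.2 ⟨Finset.add_mem_add hz1 hy1, Finset.add_mem_add hz2 hy2⟩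
    have hWcard : τ ^ 2 ≤ W.card := by
      rw [hW, Finset.card_image_of_injOn, Finset.card_product, pow_two]
      · exact Nat.mul_le_mul (hS _ (Finset.mem_insert_of_mem hX₀S))
          (hS _ (Finset.mem_insert_self _ _))
      · rintro ⟨z, y⟩ hzy ⟨z', y'⟩ hzy' heq
        obtain ⟨hz, hy⟩ := Finset.mem_product.1 (Finset.mem_coe.1 hzy)
        obtain ⟨hz', hy'⟩ := Finset.mem_product.1 (Finset.mem_coe.1 hzy')
        obtain ⟨-, -, hz3⟩ := mem_rep.1 hz
        obtain ⟨-, -, hy3⟩ := mem_rep.1 hy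
        obtain ⟨-, -, hz3'⟩ := mem_rep.1 hz'
        obtain ⟨-, -, hy3'⟩ := mem_rep.1 hy'
        simp only at heq hz3 hy3 hz3' hy3'
        have e1 : z.1 + y.1 = z'.1 + y'.1 := congrArg Prod.fst heq
        have e2 : z.2 + y.2 = z'.2 + y'.2 := congrArg Prod.snd heq
        rw [hz3, hy3, hz3', hy3'] at e2
        have hne : a - X₀ ≠ 0 := by linarith
        have e3 : (a - X₀) * (y.1 - y'.1) = 0 := by linear_combination e2 - X₀ * e1
        have e4 : y.1 = y'.1 := by
          rcases mul_eq_zero.1 e3 with h | h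
          · exact absurd h hne
          · linarith
        have e5 : z.1 = z'.1 := by linarith
        have hz' : z = z' := Prod.ext e5 (by rw [hz3, hz3', e5])
        have hy' : y = y' := Prod.ext e4 (by rw [hy3, hy3', e4])
        rw [hz', hy']
    have hdisj : Disjoint Z W := by
      rw [Finset.disjoint_left]
      intro z hz hw
      obtain ⟨h0, X, hX, h1⟩ := hZ3 z hz
      obtain ⟨-, h2, -, -⟩ := hWmem z hw
      have h3 : X ≤ X₀ := S.le_max' X hX
      nlinarith
    refine ⟨Z ∪ W, ?_, ?_, ?_⟩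
    · exact Finset.union_subset hZ1 (fun w hw => (hWmem w hw).2.2.2)
    · rw [Finset.card_union_of_disjoint hdisj, Finset.card_insert_of_notMem haS]
      have hpos : 1 ≤ S.card := Finset.card_pos.2 hS0
      have : S.card + 1 - 1 = (S.card - 1) + 1 := by omega
      rw [this, add_mul, one_mul]
      exact Nat.add_le_add hZ2 hWcard
    · intro z hz
      rcases Finset.mem_union.1 hz with hz | hz
      · obtain ⟨h0, X, hX, h1⟩ := hZ3 z hz
        exact ⟨h0, X, Finset.mem_insert_of_mem hX, h1⟩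
      · obtain ⟨h0, -, h2, -⟩ := hWmem z hz
        exact ⟨h0, a, Finset.mem_insert_self _ _, h2⟩

lemma rep_card_le_left (U P : Finset ℝ) (X : ℝ) : (rep U P X).card ≤ P.card := by
  classical
  apply Finset.card_le_card_of_injOn Prod.fst
  · intro z hz
    exact (mem_rep.1 (Finset.mem_coe.1 hz)).1
  · intro z hz z' hz' h
    obtain ⟨-, -, h3⟩ := mem_rep.1 (Finset.mem_coe.1 hz)
    obtain ⟨-, -, h3'⟩ := mem_rep.1 (Finset.mem_coe.1 hz')
    exact Prod.ext h (by rw [h3, h3', h])

lemma rep_card_le_right (U P : Finset ℝ) {X : ℝ} (hX : X ≠ 0) : (rep U P X).card ≤ U.card := by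
  classical
  apply Finset.card_le_card_of_injOn Prod.snd
  · intro z hz
    exact (mem_rep.1 (Finset.mem_coe.1 hz)).2.1
  · intro z hz z' hz' h
    obtain ⟨-, -, h3⟩ := mem_rep.1 (Finset.mem_coe.1 hz)
    obtain ⟨-, -, h3'⟩ := mem_rep.1 (Finset.mem_coe.1 hz')
    have : z.1 = z'.1 := by
      apply mul_left_cancel₀ hX
      rw [← h3, ← h3', h]
    exact Prod.ext this h

/-- The number of rich slopes. -/
lemma rich (U P : Finset ℝ) (hP : ∀ p ∈ P, 0 < p) (τ : ℕ) (S : Finset ℝ)
    (h0 : ∀ X ∈ S, X ≠ 0) (hS : ∀ X ∈ S, τ ≤ (rep U P X).card) :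
    S.card * τ ^ 2 ≤ 2 * ((U + U).card * (P + P).card) := by
  classical
  rcases S.eq_empty_or_nonempty with hS0 | ⟨X₁, hX₁⟩
  · subst hS0; simp
  obtain ⟨Z, hZ1, hZ2, -⟩ := consecutive U P hP τ S hS
  have h1 : Z.card ≤ (P + P).card * (U + U).card := by
    rw [← Finset.card_product]; exact Finset.card_le_card hZ1
  have h2 : τ ≤ P.card := (hS X₁ hX₁).trans (rep_card_le_left U P X₁)
  have h3 : τ ≤ U.card := (hS X₁ hX₁).trans (rep_card_le_right U P (h0 X₁ hX₁))
  have h4 : P.card ≤ (P + P).card := by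
    rcases P.eq_empty_or_nonempty with h | h
    · subst h; simp
    · exact Finset.card_le_card_add_left h
  have h5 : U.card ≤ (U + U).card := by
    rcases U.eq_empty_or_nonempty with h | h
    · subst h; simp
    · exact Finset.card_le_card_add_left h
  have h6 : τ ^ 2 ≤ (P + P).card * (U + U).card := by
    rw [pow_two]; exact Nat.mul_le_mul (h2.trans h4) (h3.trans h5)
  have hpos : 1 ≤ S.card := Finset.card_pos.2 ⟨X₁, hX₁⟩
  have h7 : S.card * τ ^ 2 = (S.card - 1) * τ ^ 2 + τ ^ 2 := by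
    conv_lhs => rw [show S.card = (S.card - 1) + 1 by omega]
    ring
  rw [h7]
  calc _ ≤ (P + P).card * (U + U).card + (P + P).card * (U + U).card :=
        Nat.add_le_add (hZ2.trans h1) h6
    _ = _ := by ring

/-- Solymosi's bound for the multiplicative energy, positive denominators. -/
lemma energy_pos (U P : Finset ℝ) (hP : ∀ p ∈ P, 0 < p) (S : Finset ℝ)
    (h0 : ∀ X ∈ S, X ≠ 0) (n : ℕ) (hn : ∀ X ∈ S, (rep U P X).card ≤ n) :
    (∑ X ∈ S, ((rep U P X).card : ℝ) ^ 2) ≤
      4 * ((U + U).card * (P + P).card : ℝ) * (harmonic n : ℝ) := by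
  classical
  have h1 : ∀ X ∈ S, ((rep U P X).card : ℝ) ^ 2 =
      ∑ τ ∈ Finset.range n, if τ < (rep U P X).card then (2 * (τ : ℝ) + 1) else 0 := by
    intro X hX
    rw [← Finset.sum_filter]
    have h2 : (Finset.range n).filter (fun τ => τ < (rep U P X).card) =
        Finset.range (rep U P X).card := by
      ext τ
      simp only [Finset.mem_filter, Finset.mem_range]
      exact ⟨fun h => h.2, fun h => ⟨lt_of_lt_of_le h (hn X hX), h⟩⟩
    rw [h2]
    generalize (rep U P X).card = m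
    induction m with
    | zero => simp
    | succ m ih =>
      rw [Finset.sum_range_succ, ← ih]
      push_cast
      ring
  rw [Finset.sum_congr rfl h1, Finset.sum_comm]
  have h3 : ∀ τ ∈ Finset.range n,
      (∑ X ∈ S, if τ < (rep U P X).card then (2 * (τ : ℝ) + 1) else 0) ≤
        4 * ((U + U).card * (P + P).card : ℝ) * ((τ : ℝ) + 1)⁻¹ := by
    intro τ _
    rw [← Finset.sum_filter, Finset.sum_const, nsmul_eq_mul]
    have h4 := rich U P hP (τ + 1) (S.filter (fun X => τ < (rep U P X).card))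
      (fun X hX => h0 X (Finset.mem_filter.1 hX).1) (fun X hX => (Finset.mem_filter.1 hX).2)
    set m := (S.filter (fun X => τ < (rep U P X).card)).card
    have h5 : (m : ℝ) * ((τ : ℝ) + 1) ^ 2 ≤ 2 * ((U + U).card * (P + P).card : ℝ) := by
      exact_mod_cast h4
    have h6 : (0 : ℝ) < (τ : ℝ) + 1 := by positivity
    rw [← div_eq_mul_inv, le_div_iff₀ h6]
    have hm : (0 : ℝ) ≤ m := Nat.cast_nonneg _
    have hτ : (0 : ℝ) ≤ τ := Nat.cast_nonneg _
    nlinarith [mul_nonneg hm hτ]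
  calc _ ≤ ∑ τ ∈ Finset.range n, 4 * ((U + U).card * (P + P).card : ℝ) * ((τ : ℝ) + 1)⁻¹ :=
        Finset.sum_le_sum h3
    _ = _ := by
        rw [← Finset.mul_sum]
        congr 1
        simp [harmonic]

/-- Solymosi's bound for the multiplicative energy, nonzero denominators. -/
lemma energy (U P : Finset ℝ) (hP : ∀ p ∈ P, p ≠ 0) (S : Finset ℝ)
    (h0 : ∀ X ∈ S, X ≠ 0) (n : ℕ) (hn : min U.card P.card ≤ n) :
    (∑ X ∈ S, ((rep U P X).card : ℝ) ^ 2) ≤
      16 * ((U + U).card * (P + P).card : ℝ) * (harmonic n : ℝ) := by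
  classical
  set P₁ := P.filter (fun p => 0 < p) with hP₁
  set P₂ := P.filter (fun p => p < 0) with hP₂
  have hn' : ∀ (X : ℝ), X ≠ 0 → (rep U P X).card ≤ n := fun X hX =>
    (le_min (rep_card_le_right U P hX) (rep_card_le_left U P X)).trans hn
  have hsplit : ∀ X, (rep U P X).card ≤ (rep U P₁ X).card + (rep (-U) (-P₂) X).card := by
    intro X
    have h1 : rep U P X ⊆ rep U P₁ X ∪ (rep (-U) (-P₂) X).image (fun z => -z) := by
      intro z hz
      obtain ⟨h1, h2, h3⟩ := mem_rep.1 hz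
      rcases lt_or_gt_of_ne (hP _ h1) with h | h
      · apply Finset.mem_union_right
        refine Finset.mem_image.2 ⟨-z, ?_, by simp⟩
        rw [mem_rep]
        simp only [Prod.fst_neg, Prod.snd_neg]
        refine ⟨Finset.neg_mem_neg (Finset.mem_filter.2 ⟨h1, h⟩), Finset.neg_mem_neg h2, ?_⟩
        rw [h3]; ring
      · apply Finset.mem_union_left
        exact mem_rep.2 ⟨Finset.mem_filter.2 ⟨h1, h⟩, h2, h3⟩
    calc _ ≤ _ := Finset.card_le_card h1
      _ ≤ _ := Finset.card_union_le _ _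
      _ ≤ _ := Nat.add_le_add_left Finset.card_image_le _
  have hsub1 : ∀ X, (rep U P₁ X).card ≤ (rep U P X).card := by
    intro X
    apply Finset.card_le_card
    intro z hz
    obtain ⟨h1, h2, h3⟩ := mem_rep.1 hz
    exact mem_rep.2 ⟨(Finset.mem_filter.1 h1).1, h2, h3⟩
  have hsub2 : ∀ X, (rep (-U) (-P₂) X).card ≤ (rep U P X).card := by
    intro X
    apply Finset.card_le_card_of_injOn (fun z => -z)
    · intro z hz
      obtain ⟨h1, h2, h3⟩ := mem_rep.1 (Finset.mem_coe.1 hz)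
      refine Finset.mem_coe.2 (mem_rep.2 ⟨?_, ?_, ?_⟩)
      · have := Finset.mem_neg.1 h1
        obtain ⟨y, hy, hy'⟩ := this
        simp only [Prod.fst_neg, ← hy', neg_neg]
        exact (Finset.mem_filter.1 hy).1
      · obtain ⟨y, hy, hy'⟩ := Finset.mem_neg.1 h2
        simp only [Prod.snd_neg, ← hy', neg_neg]
        exact hy
      · simp only [Prod.fst_neg, Prod.snd_neg, h3]; ring
    · intro z _ z' _ h
      simpa using h
  have e1 := energy_pos U P₁ (fun p hp => (Finset.mem_filter.1 hp).2) S h0 n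
    (fun X hX => (hsub1 X).trans (hn' X (h0 X hX)))
  have e2 := energy_pos (-U) (-P₂) (by
    intro p hp
    obtain ⟨y, hy, rfl⟩ := Finset.mem_neg.1 hp
    have := (Finset.mem_filter.1 hy).2
    linarith) S h0 n (fun X hX => (hsub2 X).trans (hn' X (h0 X hX)))
  have c1 : (P₁ + P₁).card ≤ (P + P).card :=
    Finset.card_le_card (Finset.add_subset_add (Finset.filter_subset _ _)
      (Finset.filter_subset _ _))
  have c2 : (-U + -U).card = (U + U).card := by
    rw [← neg_add, Finset.card_neg]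
  have c3 : (-P₂ + -P₂).card ≤ (P + P).card := by
    rw [← neg_add, Finset.card_neg]
    exact Finset.card_le_card (Finset.add_subset_add (Finset.filter_subset _ _)
      (Finset.filter_subset _ _))
  have hH : (0 : ℝ) ≤ (harmonic n : ℝ) := by
    have : (0 : ℚ) ≤ harmonic n := by
      unfold harmonic
      exact Finset.sum_nonneg (fun i _ => by positivity)
    exact_mod_cast this
  have c1' : ((P₁ + P₁).card : ℝ) ≤ (P + P).card := by exact_mod_cast c1
  have c3' : ((-P₂ + -P₂).card : ℝ) ≤ (P + P).card := by exact_mod_cast c3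
  have c2' : ((-U + -U).card : ℝ) = (U + U).card := by exact_mod_cast c2
  have hU : (0 : ℝ) ≤ (U + U).card := Nat.cast_nonneg _
  have e1' : (∑ X ∈ S, ((rep U P₁ X).card : ℝ) ^ 2) ≤
      4 * ((U + U).card * (P + P).card : ℝ) * (harmonic n : ℝ) := by
    refine e1.trans ?_
    gcongr
  have e2' : (∑ X ∈ S, ((rep (-U) (-P₂) X).card : ℝ) ^ 2) ≤
      4 * ((U + U).card * (P + P).card : ℝ) * (harmonic n : ℝ) := by
    refine e2.trans ?_
    rw [c2']
    gcongr
  calc (∑ X ∈ S, ((rep U P X).card : ℝ) ^ 2)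
      ≤ ∑ X ∈ S, (2 * ((rep U P₁ X).card : ℝ) ^ 2 + 2 * ((rep (-U) (-P₂) X).card : ℝ) ^ 2) := by
        apply Finset.sum_le_sum
        intro X _
        have h1 : ((rep U P X).card : ℝ) ≤ (rep U P₁ X).card + (rep (-U) (-P₂) X).card := by
          exact_mod_cast hsplit X
        have h2 : (0 : ℝ) ≤ (rep U P X).card := Nat.cast_nonneg _
        nlinarith [sq_nonneg (((rep U P₁ X).card : ℝ) - (rep (-U) (-P₂) X).card)]
    _ = 2 * (∑ X ∈ S, ((rep U P₁ X).card : ℝ) ^ 2) +
        2 * (∑ X ∈ S, ((rep (-U) (-P₂) X).card : ℝ) ^ 2) := by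
        rw [Finset.sum_add_distrib, Finset.mul_sum, Finset.mul_sum]
    _ ≤ _ := by linarith

end Pool.Agent.MP_d807e3_co.Sol
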