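import Mathlib
import Pool.Agent.Lib.MP_d807e3_co.Plane
import Pool.Agent.Lib.MP_d807e3_co.SumsetEnergy

/-!
Distances between two lines, for sets of small doubling.
-/

namespace Pool.Agent.MP_d807e3_co.Sol

open Finset
open scoped Pointwise

/-- The quadratic form `α x² - 2 β x y + γ y²`. -/
def form (α β γ x y : ℝ) : ℝ := α * x ^ 2 - 2 * β * (x * y) + γ * y ^ 2

/-- Pluennecke's inequality in the form needed here. -/
lemma pluennecke4 (A : Finset ℝ) (K : ℝ) (hK : ((A + A).card : ℝ) ≤ K * A.card) :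
    ((((A - A) + (A - A)).card : ℝ) ≤ K ^ 4 * A.card) ∧
      ((((A + A) + (A + A)).card : ℝ) ≤ K ^ 4 * A.card) := by
  classical
  rcases A.eq_empty_or_nonempty with h | h
  · subst h; simp
  have hA : (0 : ℝ) < A.card := by exact_mod_cast Finset.card_pos.2 h
  have hq : ((A + A).card : ℝ) / A.card ≤ K := by
    rw [div_le_iff₀ hA]; exact hK
  have hq0 : (0 : ℝ) ≤ ((A + A).card : ℝ) / A.card := by positivity
  constructor
  · have h1 := Finset.pluennecke_ruzsa_inequality_nsmul_sub_nsmul_add h A 2 2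
    have h2 : (A - A) + (A - A) = 2 • A - 2 • A := by
      rw [two_nsmul, sub_add_sub_comm]
    rw [← h2] at h1
    have h3 : ((((A - A) + (A - A)).card : ℝ)) ≤ (((A + A).card : ℝ) / A.card) ^ 4 * A.card := by
      have h4 := (NNRat.cast_le (K := ℝ)).2 h1
      push_cast at h4
      simpa using h4
    refine h3.trans ?_
    gcongr
  · have h1 := Finset.pluennecke_ruzsa_inequality_nsmul_add h A 4
    have h2 : (A + A) + (A + A) = 4 • A := by
      rw [← two_nsmul, ← two_nsmul, ← mul_nsmul]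
    rw [← h2] at h1
    have h3 : ((((A + A) + (A + A)).card : ℝ)) ≤ (((A + A).card : ℝ) / A.card) ^ 4 * A.card := by
      have h4 := (NNRat.cast_le (K := ℝ)).2 h1
      push_cast at h4
      simpa using h4
    refine h3.trans ?_
    gcongr

/-- The quadruples with equal value of the form. -/
noncomputable def quad (α β γ : ℝ) (A B : Finset ℝ) : Finset ((ℝ × ℝ) × (ℝ × ℝ)) :=
  ((A ×ˢ B) ×ˢ (A ×ˢ B)).filter (fun z => form α β γ z.1.1 z.1.2 = form α β γ z.2.1 z.2.2)

/-- The nondegenerate quadruples. -/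
noncomputable def nondeg (α β γ : ℝ) (A B : Finset ℝ) : Finset ((ℝ × ℝ) × (ℝ × ℝ)) :=
  (quad α β γ A B).filter (fun z => z.1.1 - z.2.1 ≠ 0 ∧ z.1.1 + z.2.1 ≠ 0 ∧
    z.1.2 - z.2.2 ≠ 0 ∧ z.1.2 + z.2.2 ≠ 0)

lemma form_eq_iff {α β γ x y x' y' : ℝ} (h : form α β γ x y = form α β γ x' y') :
    α * ((x - x') * (x + x')) - β * ((x - x') * (y + y') + (x + x') * (y - y')) +
      γ * ((y - y') * (y + y')) = 0 := by
  unfold form at h
  linear_combination h

lemma card_fiber_le_two {β' : Type*} [DecidableEq β'] (T : Finset (β' × ℝ)) (A : Finset β')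
    (f g : β' → ℝ) (h : ∀ z ∈ T, z.1 ∈ A ∧ (z.2 = f z.1 ∨ z.2 = g z.1)) :
    T.card ≤ 2 * A.card := by
  classical
  have : T ⊆ A.image (fun a => (a, f a)) ∪ A.image (fun a => (a, g a)) := by
    rintro ⟨a, b⟩ hz
    obtain ⟨h1, h2⟩ := h _ hz
    simp only at h1 h2
    rcases h2 with h2 | h2
    · exact Finset.mem_union_left _ (Finset.mem_image.2 ⟨a, h1, by rw [h2]⟩)
    · exact Finset.mem_union_right _ (Finset.mem_image.2 ⟨a, h1, by rw [h2]⟩)
  calc _ ≤ _ := Finset.card_le_card this
    _ ≤ _ := Finset.card_union_le _ _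
    _ ≤ A.card + A.card := Nat.add_le_add Finset.card_image_le Finset.card_image_le
    _ = _ := by ring

/-- Degenerate quadruples: at most `8 |A| |B|`. -/
lemma quad_card_le {α β γ : ℝ} (hα : 0 < α) (hγ : 0 < γ) (A B : Finset ℝ) :
    (quad α β γ A B).card ≤ (nondeg α β γ A B).card + 8 * (A.card * B.card) := by
  classical
  set Q := quad α β γ A B with hQ
  set D1 := Q.filter (fun z => z.1.1 - z.2.1 = 0) with hD1
  set D2 := Q.filter (fun z => z.1.1 + z.2.1 = 0) with hD2
  set D3 := Q.filter (fun z => z.1.2 - z.2.2 = 0) with hD3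
  set D4 := Q.filter (fun z => z.1.2 + z.2.2 = 0) with hD4
  have hsub : Q ⊆ nondeg α β γ A B ∪ (D1 ∪ (D2 ∪ (D3 ∪ D4))) := by
    intro z hz
    simp only [Finset.mem_union]
    by_cases h1 : z.1.1 - z.2.1 = 0
    · exact Or.inr (Or.inl (Finset.mem_filter.2 ⟨hz, h1⟩))
    by_cases h2 : z.1.1 + z.2.1 = 0
    · exact Or.inr (Or.inr (Or.inl (Finset.mem_filter.2 ⟨hz, h2⟩)))
    by_cases h3 : z.1.2 - z.2.2 = 0
    · exact Or.inr (Or.inr (Or.inr (Or.inl (Finset.mem_filter.2 ⟨hz, h3⟩))))
    by_cases h4 : z.1.2 + z.2.2 = 0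
    · exact Or.inr (Or.inr (Or.inr (Or.inr (Finset.mem_filter.2 ⟨hz, h4⟩))))
    exact Or.inl (Finset.mem_filter.2 ⟨hz, h1, h2, h3, h4⟩)
  have hrel : ∀ z ∈ Q, z.1.1 ∈ A ∧ z.1.2 ∈ B ∧
      α * ((z.1.1 - z.2.1) * (z.1.1 + z.2.1)) -
        β * ((z.1.1 - z.2.1) * (z.1.2 + z.2.2) + (z.1.1 + z.2.1) * (z.1.2 - z.2.2)) +
      γ * ((z.1.2 - z.2.2) * (z.1.2 + z.2.2)) = 0 := by
    intro z hz
    rw [hQ, quad, Finset.mem_filter, Finset.mem_product, Finset.mem_product] at hz
    exact ⟨hz.1.1.1, hz.1.1.2, form_eq_iff hz.2⟩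
  -- each degenerate class: the pair `z.1` and one of two values for the free coordinate
  have b1 : D1.card ≤ 2 * (A.card * B.card) := by
    have h1 : D1.card ≤ (D1.image (fun z => (z.1, z.2.2))).card := by
      rw [Finset.card_image_of_injOn]
      intro z hz z' hz' h
      have e1 := (Finset.mem_filter.1 (Finset.mem_coe.1 hz)).2
      have e2 := (Finset.mem_filter.1 (Finset.mem_coe.1 hz')).2
      simp only [Prod.mk.injEq] at h
      obtain ⟨h1, h2⟩ := h
      refine Prod.ext h1 (Prod.ext ?_ h2)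
      have : z.1.1 = z'.1.1 := by rw [h1]
      linarith
    refine h1.trans ?_
    have h2 := card_fiber_le_two (D1.image (fun z => (z.1, z.2.2))) (A ×ˢ B)
      (fun w => w.2) (fun w => 2 * β * w.1 / γ - w.2) (by
        intro w hw
        obtain ⟨z, hz, rfl⟩ := Finset.mem_image.1 hw
        obtain ⟨hz1, hz2⟩ := Finset.mem_filter.1 hz
        obtain ⟨a1, a2, a3⟩ := hrel z hz1
        refine ⟨Finset.mem_product.2 ⟨a1, a2⟩, ?_⟩
        simp only
        have e : z.2.1 = z.1.1 := by linarith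
        rw [e] at a3
        have a4 : (z.1.2 - z.2.2) * (γ * (z.1.2 + z.2.2) - 2 * β * z.1.1) = 0 := by
          linear_combination a3
        rcases mul_eq_zero.1 a4 with h | h
        · left; linarith
        · right
          field_simp
          linarith)
    rwa [Finset.card_product] at h2
  have b2 : D2.card ≤ 2 * (A.card * B.card) := by
    have h1 : D2.card ≤ (D2.image (fun z => (z.1, z.2.2))).card := by
      rw [Finset.card_image_of_injOn]
      intro z hz z' hz' h
      have e1 := (Finset.mem_filter.1 (Finset.mem_coe.1 hz)).2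
      have e2 := (Finset.mem_filter.1 (Finset.mem_coe.1 hz')).2
      simp only [Prod.mk.injEq] at h
      obtain ⟨h1, h2⟩ := h
      refine Prod.ext h1 (Prod.ext ?_ h2)
      have : z.1.1 = z'.1.1 := by rw [h1]
      linarith
    refine h1.trans ?_
    have h2 := card_fiber_le_two (D2.image (fun z => (z.1, z.2.2))) (A ×ˢ B)
      (fun w => -w.2) (fun w => w.2 - 2 * β * w.1 / γ) (by
        intro w hw
        obtain ⟨z, hz, rfl⟩ := Finset.mem_image.1 hw
        obtain ⟨hz1, hz2⟩ := Finset.mem_filter.1 hz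
        obtain ⟨a1, a2, a3⟩ := hrel z hz1
        refine ⟨Finset.mem_product.2 ⟨a1, a2⟩, ?_⟩
        simp only
        have e : z.2.1 = -z.1.1 := by linarith
        rw [e] at a3
        have a4 : (z.1.2 + z.2.2) * (γ * (z.1.2 - z.2.2) - 2 * β * z.1.1) = 0 := by
          linear_combination a3
        rcases mul_eq_zero.1 a4 with h | h
        · left; linarith
        · right
          field_simp
          linarith)
    rwa [Finset.card_product] at h2
  have b3 : D3.card ≤ 2 * (A.card * B.card) := by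
    have h1 : D3.card ≤ (D3.image (fun z => (z.1, z.2.1))).card := by
      rw [Finset.card_image_of_injOn]
      intro z hz z' hz' h
      have e1 := (Finset.mem_filter.1 (Finset.mem_coe.1 hz)).2
      have e2 := (Finset.mem_filter.1 (Finset.mem_coe.1 hz')).2
      simp only [Prod.mk.injEq] at h
      obtain ⟨h1, h2⟩ := h
      refine Prod.ext h1 (Prod.ext h2 ?_)
      have : z.1.2 = z'.1.2 := by rw [h1]
      linarith
    refine h1.trans ?_
    have h2 := card_fiber_le_two (D3.image (fun z => (z.1, z.2.1))) (A ×ˢ B)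
      (fun w => w.1) (fun w => 2 * β * w.2 / α - w.1) (by
        intro w hw
        obtain ⟨z, hz, rfl⟩ := Finset.mem_image.1 hw
        obtain ⟨hz1, hz2⟩ := Finset.mem_filter.1 hz
        obtain ⟨a1, a2, a3⟩ := hrel z hz1
        refine ⟨Finset.mem_product.2 ⟨a1, a2⟩, ?_⟩
        simp only
        have e : z.2.2 = z.1.2 := by linarith
        rw [e] at a3
        have a4 : (z.1.1 - z.2.1) * (α * (z.1.1 + z.2.1) - 2 * β * z.1.2) = 0 := by
          linear_combination a3
        rcases mul_eq_zero.1 a4 with h | h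
        · left; linarith
        · right
          field_simp
          linarith)
    rwa [Finset.card_product] at h2
  have b4 : D4.card ≤ 2 * (A.card * B.card) := by
    have h1 : D4.card ≤ (D4.image (fun z => (z.1, z.2.1))).card := by
      rw [Finset.card_image_of_injOn]
      intro z hz z' hz' h
      have e1 := (Finset.mem_filter.1 (Finset.mem_coe.1 hz)).2
      have e2 := (Finset.mem_filter.1 (Finset.mem_coe.1 hz')).2
      simp only [Prod.mk.injEq] at h
      obtain ⟨h1, h2⟩ := h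
      refine Prod.ext h1 (Prod.ext h2 ?_)
      have : z.1.2 = z'.1.2 := by rw [h1]
      linarith
    refine h1.trans ?_
    have h2 := card_fiber_le_two (D4.image (fun z => (z.1, z.2.1))) (A ×ˢ B)
      (fun w => -w.1) (fun w => w.1 - 2 * β * w.2 / α) (by
        intro w hw
        obtain ⟨z, hz, rfl⟩ := Finset.mem_image.1 hw
        obtain ⟨hz1, hz2⟩ := Finset.mem_filter.1 hz
        obtain ⟨a1, a2, a3⟩ := hrel z hz1
        refine ⟨Finset.mem_product.2 ⟨a1, a2⟩, ?_⟩
        simp only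
        have e : z.2.2 = -z.1.2 := by linarith
        rw [e] at a3
        have a4 : (z.1.1 + z.2.1) * (α * (z.1.1 - z.2.1) - 2 * β * z.1.2) = 0 := by
          linear_combination a3
        rcases mul_eq_zero.1 a4 with h | h
        · left; linarith
        · right
          field_simp
          linarith)
    rwa [Finset.card_product] at h2
  calc Q.card ≤ _ := Finset.card_le_card hsub
    _ ≤ (nondeg α β γ A B).card + (D1.card + (D2.card + (D3.card + D4.card))) := by
        refine (Finset.card_union_le _ _).trans (Nat.add_le_add_left ?_ _)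
        refine (Finset.card_union_le _ _).trans (Nat.add_le_add_left ?_ _)
        refine (Finset.card_union_le _ _).trans (Nat.add_le_add_left ?_ _)
        exact Finset.card_union_le _ _
    _ ≤ _ := by omega

/-- The nondegenerate quadruples are controlled by two multiplicative energies. -/
lemma nondeg_card_le {α β γ : ℝ} (hdet : β ^ 2 < α * γ) (hα : 0 < α)
    (A B : Finset ℝ) (n : ℕ) (hn1 : min (A - A).card (B - B).card ≤ n)
    (hn2 : min (A + A).card (B + B).card ≤ n) :
    ((nondeg α β γ A B).card : ℝ) ≤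
      8 * ((((A - A) + (A - A)).card : ℝ) * (((B - B) + (B - B)).card : ℝ) +
        (((A + A) + (A + A)).card : ℝ) * (((B + B) + (B + B)).card : ℝ)) *
        (harmonic n : ℝ) := by
  classical
  set U := A - A with hU
  set V := A + A with hV
  set P := (B - B).erase 0 with hP
  set Q := (B + B).erase 0 with hQ
  set φ : ℝ → ℝ := fun X => (β * X - γ) / (α * X - β) with hφ
  set T := nondeg α β γ A B with hT
  set S : Finset ℝ := T.image (fun z => (z.1.1 - z.2.1) / (z.1.2 - z.2.2)) with hS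
  have hmem : ∀ z ∈ T, z.1.1 ∈ A ∧ z.1.2 ∈ B ∧ z.2.1 ∈ A ∧ z.2.2 ∈ B ∧
      z.1.1 - z.2.1 ≠ 0 ∧ z.1.1 + z.2.1 ≠ 0 ∧ z.1.2 - z.2.2 ≠ 0 ∧ z.1.2 + z.2.2 ≠ 0 ∧
      α * ((z.1.1 - z.2.1) * (z.1.1 + z.2.1)) -
        β * ((z.1.1 - z.2.1) * (z.1.2 + z.2.2) + (z.1.1 + z.2.1) * (z.1.2 - z.2.2)) +
      γ * ((z.1.2 - z.2.2) * (z.1.2 + z.2.2)) = 0 := by
    intro z hz
    rw [hT, nondeg, Finset.mem_filter, quad, Finset.mem_filter, Finset.mem_product,
      Finset.mem_product, Finset.mem_product] at hz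
    exact ⟨hz.1.1.1.1, hz.1.1.1.2, hz.1.1.2.1, hz.1.1.2.2, hz.2.1, hz.2.2.1, hz.2.2.2.1,
      hz.2.2.2.2, form_eq_iff hz.1.2⟩
  -- the key relation between the two slopes
  have hkey : ∀ z ∈ T, α * ((z.1.1 - z.2.1) / (z.1.2 - z.2.2)) - β ≠ 0 ∧
      (z.1.1 + z.2.1) / (z.1.2 + z.2.2) = φ ((z.1.1 - z.2.1) / (z.1.2 - z.2.2)) := by
    intro z hz
    obtain ⟨-, -, -, -, n1, n2, n3, n4, hr⟩ := hmem z hz
    set X := (z.1.1 - z.2.1) / (z.1.2 - z.2.2) with hX
    set Y := (z.1.1 + z.2.1) / (z.1.2 + z.2.2) with hY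
    have e1 : z.1.1 - z.2.1 = X * (z.1.2 - z.2.2) := by rw [hX]; field_simp
    have e2 : z.1.1 + z.2.1 = Y * (z.1.2 + z.2.2) := by rw [hY]; field_simp
    rw [e1, e2] at hr
    have hr' : (z.1.2 - z.2.2) * (z.1.2 + z.2.2) * (Y * (α * X - β) - (β * X - γ)) = 0 := by
      linear_combination hr
    have hr2 : Y * (α * X - β) = β * X - γ := by
      rcases mul_eq_zero.1 hr' with h | h
      · exact absurd h (mul_ne_zero n3 n4)
      · linarith
    have hne : α * X - β ≠ 0 := by
      intro h0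
      rw [h0, mul_zero] at hr2
      have h1 : X = β / α := by field_simp; linarith
      rw [h1] at hr2
      have h2 : β ^ 2 = α * γ := by
        field_simp at hr2
        linarith
      linarith
    refine ⟨hne, ?_⟩
    rw [hφ]
    simp only
    rw [eq_div_iff hne]
    exact hr2
  have hSprop : ∀ X ∈ S, X ≠ 0 ∧ α * X - β ≠ 0 ∧ φ X ≠ 0 := by
    intro X hX
    obtain ⟨z, hz, rfl⟩ := Finset.mem_image.1 hX
    obtain ⟨-, -, -, -, n1, n2, n3, n4, -⟩ := hmem z hz
    obtain ⟨k1, k2⟩ := hkey z hz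
    exact ⟨div_ne_zero n1 n3, k1, by rw [← k2]; exact div_ne_zero n2 n4⟩
  have hinj : Set.InjOn φ (S : Set ℝ) := by
    intro X hX X' hX' h
    obtain ⟨-, h1, -⟩ := hSprop X (Finset.mem_coe.1 hX)
    obtain ⟨-, h1', -⟩ := hSprop X' (Finset.mem_coe.1 hX')
    rw [hφ] at h
    simp only at h
    rw [div_eq_div_iff h1 h1'] at h
    have h2 : (α * γ - β ^ 2) * (X - X') = 0 := by linear_combination h
    rcases mul_eq_zero.1 h2 with h3 | h3
    · exact absurd h3 (by linarith)
    · linarith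
  -- count by fibers
  have hcount : T.card ≤ ∑ X ∈ S, (rep U P X).card * (rep V Q (φ X)).card := by
    rw [Finset.card_eq_sum_card_image (fun z => (z.1.1 - z.2.1) / (z.1.2 - z.2.2)) T]
    apply Finset.sum_le_sum
    intro X hX
    rw [← Finset.card_product]
    apply Finset.card_le_card_of_injOn
      (fun z => ((z.1.2 - z.2.2, z.1.1 - z.2.1), (z.1.2 + z.2.2, z.1.1 + z.2.1)))
    · intro z hz
      obtain ⟨hz1, hz2⟩ := Finset.mem_filter.1 (Finset.mem_coe.1 hz)
      obtain ⟨m1, m2, m3, m4, n1, n2, n3, n4, -⟩ := hmem z hz1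
      obtain ⟨k1, k2⟩ := hkey z hz1
      refine Finset.mem_coe.2 (Finset.mem_product.2 ⟨mem_rep.2 ⟨?_, ?_, ?_⟩,
        mem_rep.2 ⟨?_, ?_, ?_⟩⟩)
      · exact Finset.mem_erase.2 ⟨n3, Finset.sub_mem_sub m2 m4⟩
      · exact Finset.sub_mem_sub m1 m3
      · simp only
        rw [← hz2]; field_simp
      · exact Finset.mem_erase.2 ⟨n4, Finset.add_mem_add m2 m4⟩
      · exact Finset.add_mem_add m1 m3
      · simp only
        rw [← hz2, ← k2]; field_simp
    · intro z _ z' _ h
      simp only [Prod.mk.injEq] at h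
      obtain ⟨⟨h1, h2⟩, h3, h4⟩ := h
      refine Prod.ext (Prod.ext ?_ ?_) (Prod.ext ?_ ?_) <;> linarith
  have hcount' : (T.card : ℝ) ≤
      ∑ X ∈ S, ((rep U P X).card : ℝ) * ((rep V Q (φ X)).card : ℝ) := by
    exact_mod_cast hcount
  have hamgm : ∑ X ∈ S, ((rep U P X).card : ℝ) * ((rep V Q (φ X)).card : ℝ) ≤
      (1 / 2) * (∑ X ∈ S, ((rep U P X).card : ℝ) ^ 2) +
      (1 / 2) * (∑ X ∈ S, ((rep V Q (φ X)).card : ℝ) ^ 2) := by
    rw [Finset.mul_sum, Finset.mul_sum, ← Finset.sum_add_distrib]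
    apply Finset.sum_le_sum
    intro X _
    nlinarith [sq_nonneg (((rep U P X).card : ℝ) - ((rep V Q (φ X)).card : ℝ))]
  have hsum2 : (∑ X ∈ S, ((rep V Q (φ X)).card : ℝ) ^ 2) =
      ∑ Y ∈ S.image φ, ((rep V Q Y).card : ℝ) ^ 2 := by
    rw [Finset.sum_image hinj]
  have e1 := energy U P (fun p hp => (Finset.mem_erase.1 hp).1) S
    (fun X hX => (hSprop X hX).1) n
    ((min_le_min_left _ (Finset.card_le_card (Finset.erase_subset _ _))).trans hn1)
  have e2 := energy V Q (fun p hp => (Finset.mem_erase.1 hp).1) (S.image φ)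
    (by
      intro Y hY
      obtain ⟨X, hX, rfl⟩ := Finset.mem_image.1 hY
      exact (hSprop X hX).2.2) n
    ((min_le_min_left _ (Finset.card_le_card (Finset.erase_subset _ _))).trans hn2)
  have hH : (0 : ℝ) ≤ (harmonic n : ℝ) := by
    have : (0 : ℚ) ≤ harmonic n := by
      unfold harmonic
      exact Finset.sum_nonneg (fun i _ => by positivity)
    exact_mod_cast this
  have c1 : ((P + P).card : ℝ) ≤ (((B - B) + (B - B)).card : ℝ) := by
    exact_mod_cast Finset.card_le_card (Finset.add_subset_add (Finset.erase_subset _ _)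
      (Finset.erase_subset _ _))
  have c2 : ((Q + Q).card : ℝ) ≤ (((B + B) + (B + B)).card : ℝ) := by
    exact_mod_cast Finset.card_le_card (Finset.add_subset_add (Finset.erase_subset _ _)
      (Finset.erase_subset _ _))
  have e1' : (∑ X ∈ S, ((rep U P X).card : ℝ) ^ 2) ≤
      16 * ((U + U).card * ((B - B) + (B - B)).card : ℝ) * (harmonic n : ℝ) := by
    refine e1.trans ?_
    gcongr
  have e2' : (∑ Y ∈ S.image φ, ((rep V Q Y).card : ℝ) ^ 2) ≤
      16 * ((V + V).card * ((B + B) + (B + B)).card : ℝ) * (harmonic n : ℝ) := by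
    refine e2.trans ?_
    gcongr
  calc (T.card : ℝ) ≤ _ := hcount'
    _ ≤ _ := hamgm
    _ ≤ (1 / 2) * (16 * ((U + U).card * ((B - B) + (B - B)).card : ℝ) * (harmonic n : ℝ)) +
        (1 / 2) * (16 * ((V + V).card * ((B + B) + (B + B)).card : ℝ) * (harmonic n : ℝ)) := by
        rw [hsum2]
        gcongr
    _ = _ := by ring

/-- Cauchy-Schwarz for the number of values of the form. -/
lemma cauchy (α β γ : ℝ) (A B : Finset ℝ) :
    ((A.card : ℝ) * B.card) ^ 2 ≤
      (((A ×ˢ B).image (fun z => form α β γ z.1 z.2)).card : ℝ) * ((quad α β γ A B).card : ℝ) := by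
  classical
  set D := (A ×ˢ B).image (fun z => form α β γ z.1 z.2) with hD
  set r : ℝ → ℕ := fun d => ((A ×ˢ B).filter (fun z => form α β γ z.1 z.2 = d)).card with hr
  have h1 : (A ×ˢ B).card = ∑ d ∈ D, r d :=
    Finset.card_eq_sum_card_fiberwise (fun z hz => Finset.mem_coe.2
      (Finset.mem_image_of_mem _ (Finset.mem_coe.1 hz)))
  have h2 : (quad α β γ A B).card = ∑ d ∈ D, r d ^ 2 := by
    rw [Finset.card_eq_sum_card_fiberwise (f := fun z => form α β γ z.1.1 z.1.2) (t := D)]
    · apply Finset.sum_congr rfl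
      intro d _
      rw [hr, pow_two, ← Finset.card_product]
      congr 1
      ext z
      simp only [quad, Finset.mem_filter, Finset.mem_product]
      constructor
      · rintro ⟨⟨⟨h1, h2⟩, h3⟩, h4⟩
        exact ⟨⟨h1, h4⟩, h2, by rw [← h3, h4]⟩
      · rintro ⟨⟨h1, h4⟩, h2, h3⟩
        exact ⟨⟨⟨h1, h2⟩, by rw [h4, h3]⟩, h4⟩
    · intro z hz
      have hz' := Finset.mem_coe.1 hz
      rw [quad, Finset.mem_filter, Finset.mem_product] at hz'
      exact Finset.mem_coe.2 (Finset.mem_image.2 ⟨z.1, hz'.1.1, rfl⟩)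
  have h3 : ((A.card : ℝ) * B.card) = ∑ d ∈ D, (r d : ℝ) := by
    rw [← Nat.cast_mul, ← Finset.card_product, h1]
    push_cast
    rfl
  have h4 : ((quad α β γ A B).card : ℝ) = ∑ d ∈ D, (r d : ℝ) ^ 2 := by
    rw [h2]; push_cast; rfl
  rw [h3, h4]
  exact sq_sum_le_card_mul_sum_sq

/-- The abstract count. -/
theorem abstract_small_doubling {α β γ : ℝ} (hα : 0 < α) (hγ : 0 < γ) (hdet : β ^ 2 < α * γ)
    (A B : Finset ℝ) (K L : ℝ) (hK : ((A + A).card : ℝ) ≤ K * A.card)
    (hL : ((B + B).card : ℝ) ≤ L * B.card) :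
    (A.card : ℝ) * B.card ≤ 48 * (K ^ 4 * L ^ 4 *
      (1 + Real.log ((min A.card B.card : ℕ) : ℝ)) *
      (((A ×ˢ B).image (fun z => form α β γ z.1 z.2)).card : ℝ)) := by
  classical
  rcases A.eq_empty_or_nonempty with hA | hA
  · subst hA; simp
  rcases B.eq_empty_or_nonempty with hB | hB
  · subst hB; simp
  have hA0 : (0 : ℝ) < A.card := by exact_mod_cast Finset.card_pos.2 hA
  have hB0 : (0 : ℝ) < B.card := by exact_mod_cast Finset.card_pos.2 hB
  have hK1 : 1 ≤ K := by
    have h1 : (A.card : ℝ) ≤ (A + A).card := by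
      exact_mod_cast Finset.card_le_card_add_left hA
    by_contra hc
    push Not at hc
    nlinarith
  have hL1 : 1 ≤ L := by
    have h1 : (B.card : ℝ) ≤ (B + B).card := by
      exact_mod_cast Finset.card_le_card_add_left hB
    by_contra hc
    push Not at hc
    nlinarith
  set m := min A.card B.card with hm
  have hm1 : 1 ≤ m := le_min (Finset.card_pos.2 hA) (Finset.card_pos.2 hB)
  set n := m ^ 2 with hn
  have hmin : ∀ a b : ℕ, a ≤ A.card * A.card → b ≤ B.card * B.card → min a b ≤ n := by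
    intro a b ha hb
    rcases le_total A.card B.card with h | h
    · have : m = A.card := min_eq_left h
      rw [hn, this, pow_two]
      exact (min_le_left _ _).trans ha
    · have : m = B.card := min_eq_right h
      rw [hn, this, pow_two]
      exact (min_le_right _ _).trans hb
  have hnd := nondeg_card_le hdet hα A B n
    (hmin _ _ (Finset.card_sub_le) (Finset.card_sub_le))
    (hmin _ _ (Finset.card_add_le) (Finset.card_add_le))
  obtain ⟨pA1, pA2⟩ := pluennecke4 A K hK
  obtain ⟨pB1, pB2⟩ := pluennecke4 B L hL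
  have hH0 : (0 : ℝ) ≤ (harmonic n : ℝ) := by
    have : (0 : ℚ) ≤ harmonic n := by
      unfold harmonic
      exact Finset.sum_nonneg (fun i _ => by positivity)
    exact_mod_cast this
  have hH : (harmonic n : ℝ) ≤ 1 + 2 * Real.log (m : ℝ) := by
    have h1 := harmonic_le_one_add_log n
    have h2 : Real.log (n : ℝ) = 2 * Real.log (m : ℝ) := by
      rw [hn]; push_cast
      rw [Real.log_pow]; norm_num
    linarith
  have hlog : 0 ≤ Real.log (m : ℝ) := Real.log_nonneg (by exact_mod_cast hm1)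
  set n0 : ℝ := (A.card : ℝ) * B.card with hn0
  have hn0pos : 0 < n0 := mul_pos hA0 hB0
  have hnd' : ((nondeg α β γ A B).card : ℝ) ≤ 16 * (K ^ 4 * L ^ 4) * n0 *
      (1 + 2 * Real.log (m : ℝ)) := by
    have h1 : (((A - A) + (A - A)).card : ℝ) * (((B - B) + (B - B)).card : ℝ) ≤
        (K ^ 4 * A.card) * (L ^ 4 * B.card) := by
      gcongr
    have h2 : (((A + A) + (A + A)).card : ℝ) * (((B + B) + (B + B)).card : ℝ) ≤
        (K ^ 4 * A.card) * (L ^ 4 * B.card) := by
      gcongr
    calc _ ≤ _ := hnd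
      _ ≤ 8 * ((K ^ 4 * A.card) * (L ^ 4 * B.card) + (K ^ 4 * A.card) * (L ^ 4 * B.card)) *
          (1 + 2 * Real.log (m : ℝ)) := by
          gcongr
      _ = _ := by rw [hn0]; ring
  have hquad : ((quad α β γ A B).card : ℝ) ≤ 48 * (K ^ 4 * L ^ 4) * n0 *
      (1 + Real.log (m : ℝ)) := by
    have h1 := quad_card_le (β := β) hα hγ A B
    have h2 : ((quad α β γ A B).card : ℝ) ≤ (nondeg α β γ A B).card + 8 * n0 := by
      rw [hn0]; exact_mod_cast h1
    have h3 : (1 : ℝ) ≤ K ^ 4 * L ^ 4 := by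
      have := one_le_pow₀ (n := 4) hK1
      have := one_le_pow₀ (n := 4) hL1
      nlinarith
    have h4 : n0 ≤ (K ^ 4 * L ^ 4) * n0 := le_mul_of_one_le_left hn0pos.le h3
    have h5 : 0 ≤ (K ^ 4 * L ^ 4) * n0 * Real.log (m : ℝ) := by positivity
    nlinarith
  have hcs := cauchy α β γ A B
  set D := (((A ×ˢ B).image (fun z => form α β γ z.1 z.2)).card : ℝ) with hD
  have hD0 : 0 ≤ D := Nat.cast_nonneg _
  have h6 : n0 ^ 2 ≤ D * (48 * (K ^ 4 * L ^ 4) * n0 * (1 + Real.log (m : ℝ))) :=
    hcs.trans (mul_le_mul_of_nonneg_left hquad hD0)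
  have h7 : n0 * n0 ≤ n0 * (48 * (K ^ 4 * L ^ 4 * (1 + Real.log (m : ℝ)) * D)) := by
    nlinarith
  exact le_of_mul_le_mul_left h7 hn0pos

/-- Distances between two lines, sets of small doubling. -/
theorem small_doubling (a u b v : Plane) (P Q : Finset Plane) (K L : ℝ)
    (huv : LinearIndependent ℝ ![u, v])
    (hP : ∀ p ∈ P, ∃ t : ℝ, p = a + t • u) (hQ : ∀ q ∈ Q, ∃ t : ℝ, q = b + t • v)
    (hK : ((P + P).card : ℝ) ≤ K * P.card) (hL : ((Q + Q).card : ℝ) ≤ L * Q.card) :
    (P.card : ℝ) * Q.card ≤ 48 * (K ^ 4 * L ^ 4 *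
      (1 + Real.log ((min P.card Q.card : ℕ) : ℝ)) * ((distances P Q).card : ℝ)) := by
  classical
  have hli := LinearIndependent.pair_iff.1 huv
  have hu : u ≠ 0 := by
    intro h0
    have := hli 1 0 (by simp [h0])
    exact one_ne_zero this.1
  have hv : v ≠ 0 := by
    intro h0
    have := hli 0 1 (by simp [h0])
    exact one_ne_zero this.2
  have hα : 0 < (inner ℝ u u : ℝ) := real_inner_self_pos.2 hu
  have hγ : 0 < (inner ℝ v v : ℝ) := real_inner_self_pos.2 hv
  have hdet := det_pos huv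
  -- the intersection point of the two lines
  obtain ⟨s₀, t₀, hst⟩ : ∃ s t : ℝ, a - b = s • u + t • v := by
    have hfr : Module.finrank ℝ Plane = 2 := by simp [Plane]
    have hspan : Submodule.span ℝ (Set.range ![u, v]) = ⊤ :=
      huv.span_eq_top_of_card_eq_finrank (by simp [hfr])
    have h1 : a - b ∈ Submodule.span ℝ (Set.range ![u, v]) := by rw [hspan]; trivial
    have h2 : Set.range ![u, v] = {u, v} := by
      simp [Matrix.range_cons, Matrix.range_empty, Set.pair_comm]
    rw [h2, Submodule.mem_span_pair] at h1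
    obtain ⟨s, t, h⟩ := h1
    exact ⟨s, t, h.symm⟩
  set O : Plane := b + t₀ • v with hO
  have hPO : ∀ p ∈ P, ∃ t : ℝ, p = O + t • u := by
    intro p hp
    obtain ⟨t, ht⟩ := hP p hp
    refine ⟨t + s₀, ?_⟩
    have h1 : a = b + (s₀ • u + t₀ • v) := by rw [← hst]; abel
    rw [ht, h1, hO, add_smul]
    abel
  have hQO : ∀ q ∈ Q, ∃ t : ℝ, q = O + t • v := by
    intro q hq
    obtain ⟨t, ht⟩ := hQ q hq
    refine ⟨t - t₀, ?_⟩
    rw [ht, hO, sub_smul]
    abel
  choose! x hx using hPO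
  choose! y hy using hQO
  set A : Finset ℝ := P.image x with hA
  set B : Finset ℝ := Q.image y with hB
  have hAcard : A.card = P.card := by
    apply Finset.card_image_of_injOn
    intro p hp p' hp' heq
    rw [hx p hp, hx p' hp', heq]
  have hBcard : B.card = Q.card := by
    apply Finset.card_image_of_injOn
    intro p hp p' hp' heq
    rw [hy p hp, hy p' hp', heq]
  have hcoord : ∀ (w : Plane) (s : ℝ), w ≠ 0 →
      (inner ℝ (s • w) w : ℝ) / (inner ℝ w w : ℝ) = s := by
    intro w s hw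
    have : (inner ℝ w w : ℝ) ≠ 0 := (real_inner_self_pos.2 hw).ne'
    rw [real_inner_smul_left]
    field_simp
  have hAA : (A + A).card ≤ (P + P).card := by
    have h1 : A + A ⊆ (P + P).image
        (fun z => (inner ℝ (z - (O + O)) u : ℝ) / (inner ℝ u u : ℝ)) := by
      intro z hz
      obtain ⟨z1, hz1, z2, hz2, rfl⟩ := Finset.mem_add.1 hz
      obtain ⟨p, hp, rfl⟩ := Finset.mem_image.1 hz1
      obtain ⟨p', hp', rfl⟩ := Finset.mem_image.1 hz2
      refine Finset.mem_image.2 ⟨p + p', Finset.add_mem_add hp hp', ?_⟩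
      have h2 : p + p' - (O + O) = (x p + x p') • u := by
        conv_lhs => rw [hx p hp, hx p' hp']
        rw [add_smul]; abel
      rw [h2, hcoord u _ hu]
    exact (Finset.card_le_card h1).trans Finset.card_image_le
  have hBB : (B + B).card ≤ (Q + Q).card := by
    have h1 : B + B ⊆ (Q + Q).image
        (fun z => (inner ℝ (z - (O + O)) v : ℝ) / (inner ℝ v v : ℝ)) := by
      intro z hz
      obtain ⟨z1, hz1, z2, hz2, rfl⟩ := Finset.mem_add.1 hz
      obtain ⟨p, hp, rfl⟩ := Finset.mem_image.1 hz1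
      obtain ⟨p', hp', rfl⟩ := Finset.mem_image.1 hz2
      refine Finset.mem_image.2 ⟨p + p', Finset.add_mem_add hp hp', ?_⟩
      have h2 : p + p' - (O + O) = (y p + y p') • v := by
        conv_lhs => rw [hy p hp, hy p' hp']
        rw [add_smul]; abel
      rw [h2, hcoord v _ hv]
    exact (Finset.card_le_card h1).trans Finset.card_image_le
  have hmain := abstract_small_doubling (β := (inner ℝ u v : ℝ)) hα hγ hdet A B K L
    (by rw [hAcard]; exact le_trans (by exact_mod_cast hAA) hK)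
    (by rw [hBcard]; exact le_trans (by exact_mod_cast hBB) hL)
  rw [hAcard, hBcard] at hmain
  have hval : ∀ (s t : ℝ), dist (O + s • u) (O + t • v) ^ 2 =
      form (inner ℝ u u) (inner ℝ u v) (inner ℝ v v) s t := by
    intro s t
    have h1 := dist_sq_eq O u O v s t
    rw [h1]
    simp only [sub_self, inner_zero_left, form, qf]
    ring
  have hcard : ((A ×ˢ B).image (fun z => form (inner ℝ u u) (inner ℝ u v) (inner ℝ v v)
      z.1 z.2)).card ≤ (distances P Q).card := by
    calc _ ≤ ((distances P Q).image (fun d => d ^ 2)).card := by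
          apply Finset.card_le_card
          intro w hw
          obtain ⟨z, hz, rfl⟩ := Finset.mem_image.1 hw
          obtain ⟨hz1, hz2⟩ := Finset.mem_product.1 hz
          obtain ⟨p, hp, hpz⟩ := Finset.mem_image.1 hz1
          obtain ⟨q, hq, hqz⟩ := Finset.mem_image.1 hz2
          refine Finset.mem_image.2 ⟨dist p q, Finset.mem_image.2 ⟨(p, q),
            Finset.mem_product.2 ⟨hp, hq⟩, rfl⟩, ?_⟩
          rw [← hval, ← hpz, ← hqz, ← hx p hp, ← hy q hq]
      _ ≤ _ := Finset.card_image_le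
  have hcard' : ((((A ×ˢ B).image (fun z => form (inner ℝ u u) (inner ℝ u v) (inner ℝ v v)
      z.1 z.2)).card : ℕ) : ℝ) ≤ ((distances P Q).card : ℝ) := by exact_mod_cast hcard
  refine hmain.trans ?_
  have hlog : 0 ≤ 1 + Real.log ((min P.card Q.card : ℕ) : ℝ) := by
    have := Real.log_natCast_nonneg (min P.card Q.card)
    linarith
  gcongr

end Pool.Agent.MP_d807e3_co.Sol
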