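import Pool.Agent.Lib.MP_d807e3_co.OneSided
import Pool.Agent.Lib.MP_d807e3_co.SmallDoubling

/-!
Distances between two lines, the points on the first line have small doubling.
-/

namespace Pool.Agent.MP_d807e3_co.OneSided

open Finset
open scoped Pointwise

/-- From the three cases to the bound. -/
lemma min_bound {K a b d : ℝ} (hK : 1 ≤ K) (ha : 0 < a) (hb : 1 ≤ b) (hd : 0 ≤ d)
    (h : a * b ≤ 64 * K * d ∨ a ^ 2 ≤ 8192 * d ∨ a ^ 5 * b ^ 3 ≤ 2 ^ 83 * K ^ 29 * d ^ 5) :
    a * min a (b ^ (3 / 5 : ℝ)) ≤ 2 ^ 17 * (K ^ 6 * d) := by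
  have hb0 : 0 < b := by linarith
  have hK6 : K ≤ K ^ 6 := by
    calc K = K ^ 1 := (pow_one K).symm
      _ ≤ K ^ 6 := pow_le_pow_right₀ hK (by norm_num)
  have hK6' : 1 ≤ K ^ 6 := one_le_pow₀ hK
  have hbp : b ^ (3 / 5 : ℝ) ≤ b := by
    calc b ^ (3 / 5 : ℝ) ≤ b ^ (1 : ℝ) := Real.rpow_le_rpow_of_exponent_le hb (by norm_num)
      _ = b := Real.rpow_one b
  have hbp0 : 0 < b ^ (3 / 5 : ℝ) := Real.rpow_pos_of_pos hb0 _
  rcases h with h | h | h
  · calc a * min a (b ^ (3 / 5 : ℝ)) ≤ a * b :=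
          mul_le_mul_of_nonneg_left ((min_le_right _ _).trans hbp) ha.le
      _ ≤ 64 * K * d := h
      _ ≤ 2 ^ 17 * (K ^ 6 * d) := by
          have := mul_le_mul_of_nonneg_right hK6 hd
          have h2 : 0 ≤ K ^ 6 * d := by positivity
          linarith
  · calc a * min a (b ^ (3 / 5 : ℝ)) ≤ a * a :=
          mul_le_mul_of_nonneg_left (min_le_left _ _) ha.le
      _ = a ^ 2 := (pow_two a).symm
      _ ≤ 8192 * d := h
      _ ≤ 2 ^ 17 * (K ^ 6 * d) := by
          have := mul_le_mul_of_nonneg_right hK6' hd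
          linarith
  · have h1 : (a * b ^ (3 / 5 : ℝ)) ^ 5 = a ^ 5 * b ^ 3 := by
      rw [mul_pow, ← Real.rpow_natCast (b ^ (3 / 5 : ℝ)), ← Real.rpow_mul hb0.le]
      norm_num
    have h2 : (a * b ^ (3 / 5 : ℝ)) ^ 5 ≤ (2 ^ 17 * (K ^ 6 * d)) ^ 5 := by
      rw [h1]
      calc a ^ 5 * b ^ 3 ≤ 2 ^ 83 * K ^ 29 * d ^ 5 := h
        _ = 2 ^ 83 * (K ^ 29 * d ^ 5) := by ring
        _ ≤ 2 ^ 85 * (K ^ 30 * d ^ 5) := by
            have h3 : K ^ 29 ≤ K ^ 30 := pow_le_pow_right₀ hK (by norm_num)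
            have h4 := mul_le_mul_of_nonneg_right h3 (pow_nonneg hd 5)
            have h5 : 0 ≤ K ^ 29 * d ^ 5 := by positivity
            calc (2 : ℝ) ^ 83 * (K ^ 29 * d ^ 5) ≤ 2 ^ 85 * (K ^ 29 * d ^ 5) :=
                  mul_le_mul_of_nonneg_right (by norm_num) h5
              _ ≤ 2 ^ 85 * (K ^ 30 * d ^ 5) := mul_le_mul_of_nonneg_left h4 (by positivity)
        _ = _ := by ring
    have h3 : a * b ^ (3 / 5 : ℝ) ≤ 2 ^ 17 * (K ^ 6 * d) :=
      le_of_pow_le_pow_left₀ (by norm_num) (by positivity) h2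
    exact (mul_le_mul_of_nonneg_left (min_le_right _ _) ha.le).trans h3

/-- A quadratic function takes each value at most twice. -/
lemma card_le_two {α β γ : ℝ} (hα : 0 < α) (A B : Finset ℝ) (hB : B.Nonempty) :
    A.card ≤ 2 * ((A ×ˢ B).image (fm α β γ)).card := by
  classical
  obtain ⟨y, hy⟩ := hB
  have h1 := Finset.card_le_mul_card_image (f := fun x => fm α β γ (x, y)) A 2 (by
    intro c hc
    obtain ⟨x₀, hx₀, rfl⟩ := Finset.mem_image.1 hc
    have h2 : A.filter (fun x => fm α β γ (x, y) = fm α β γ (x₀, y)) ⊆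
        {x₀, 2 * β * y / α - x₀} := by
      intro x hx
      have h3 := (Finset.mem_filter.1 hx).2
      rw [Finset.mem_insert, Finset.mem_singleton]
      have h4 : (x - x₀) * (α * (x + x₀) - 2 * β * y) = 0 := by
        unfold fm at h3
        simp only at h3
        linear_combination h3
      rcases mul_eq_zero.1 h4 with h5 | h5
      · left
        linarith
      · right
        field_simp
        linarith
    exact (Finset.card_le_card h2).trans Finset.card_le_two)
  refine h1.trans (Nat.mul_le_mul_left _ (Finset.card_le_card ?_))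
  intro c hc
  obtain ⟨x, hx, rfl⟩ := Finset.mem_image.1 hc
  exact Finset.mem_image.2 ⟨(x, y), Finset.mem_product.2 ⟨hx, hy⟩, rfl⟩

/-- The bound for the number of values of the quadratic form. -/
theorem main_form {α β γ : ℝ} (hα : 0 < α) (hγ : 0 < γ) (hβ : β ≠ 0) (hdet : β ^ 2 < α * γ)
    (A B : Finset ℝ) (K : ℝ) (hK : ((A + A).card : ℝ) ≤ K * A.card) {D : ℕ}
    (hD : ((A ×ˢ B).image (fm α β γ)).card ≤ D) :
    (A.card : ℝ) * min (A.card : ℝ) ((B.card : ℝ) ^ (3 / 5 : ℝ)) ≤ 2 ^ 19 * (K ^ 6 * D) := by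
  classical
  have hD0 : (0 : ℝ) ≤ D := Nat.cast_nonneg _
  have hRHS : 0 ≤ 2 ^ 19 * (K ^ 6 * (D : ℝ)) := by positivity
  rcases A.eq_empty_or_nonempty with hA0 | hA0
  · subst hA0
    simpa using hRHS
  rcases B.eq_empty_or_nonempty with hB0 | hB0
  · subst hB0
    rw [Finset.card_empty, Nat.cast_zero, Real.zero_rpow (by norm_num),
      min_eq_right (Nat.cast_nonneg _), mul_zero]
    exact hRHS
  have ha : (0 : ℝ) < A.card := by exact_mod_cast Finset.card_pos.2 hA0
  have hK1 : 1 ≤ K := by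
    have hAA : (A.card : ℝ) ≤ (A + A).card := by exact_mod_cast Finset.card_le_card_add_left hA0
    by_contra hc
    push Not at hc
    have := mul_lt_mul_of_pos_right hc ha
    linarith
  have hK6' : 1 ≤ K ^ 6 := one_le_pow₀ hK1
  have h2 : (A.card : ℝ) ≤ 2 * D := by
    have h3 := (card_le_two (β := β) (γ := γ) hα A B hB0).trans (Nat.mul_le_mul_left 2 hD)
    exact_mod_cast h3
  rcases Nat.lt_or_ge B.card 2 with hB2 | hB2
  · have hB1 : B.card = 1 := by
      have := Finset.card_pos.2 hB0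
      omega
    rw [hB1, Nat.cast_one, Real.one_rpow]
    calc (A.card : ℝ) * min (A.card : ℝ) 1 ≤ A.card * 1 :=
          mul_le_mul_of_nonneg_left (min_le_right _ _) ha.le
      _ = A.card := mul_one _
      _ ≤ 2 * D := h2
      _ ≤ 2 ^ 19 * (K ^ 6 * D) := by
          have := mul_le_mul_of_nonneg_right hK6' hD0
          linarith
  -- a large part of `B` with a fixed sign
  have key : ∀ (β' : ℝ) (B' : Finset ℝ), β' ≠ 0 → β' ^ 2 < α * γ → (∀ b ∈ B', 0 < b) →
      B.card ≤ 4 * B'.card → (A ×ˢ B').image (fm α β' γ) ⊆ (A ×ˢ B).image (fm α β γ) →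
      (A.card : ℝ) * min (A.card : ℝ) ((B.card : ℝ) ^ (3 / 5 : ℝ)) ≤ 2 ^ 19 * (K ^ 6 * D) := by
    intro β' B' hβ' hdet' hpos hcard hsub
    have hB'0 : B'.Nonempty := Finset.card_pos.1 (by omega)
    have hb' : (1 : ℝ) ≤ B'.card := by exact_mod_cast Finset.card_pos.2 hB'0
    have h3 := min_bound hK1 ha hb' hD0 (main_pos hα hγ hβ' hdet' A B' hpos hA0 hB'0 K hK
      ((Finset.card_le_card hsub).trans hD))
    have h4 : ((B.card : ℝ)) ^ (3 / 5 : ℝ) ≤ 4 * (B'.card : ℝ) ^ (3 / 5 : ℝ) := by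
      have h5 : (B.card : ℝ) ≤ 4 * B'.card := by exact_mod_cast hcard
      calc ((B.card : ℝ)) ^ (3 / 5 : ℝ) ≤ (4 * B'.card : ℝ) ^ (3 / 5 : ℝ) :=
            Real.rpow_le_rpow (Nat.cast_nonneg _) h5 (by norm_num)
        _ = 4 ^ (3 / 5 : ℝ) * (B'.card : ℝ) ^ (3 / 5 : ℝ) :=
            Real.mul_rpow (by norm_num) (Nat.cast_nonneg _)
        _ ≤ 4 * (B'.card : ℝ) ^ (3 / 5 : ℝ) := by
            refine mul_le_mul_of_nonneg_right ?_ (Real.rpow_nonneg (Nat.cast_nonneg _) _)
            calc (4 : ℝ) ^ (3 / 5 : ℝ) ≤ 4 ^ (1 : ℝ) :=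
                  Real.rpow_le_rpow_of_exponent_le (by norm_num) (by norm_num)
              _ = 4 := Real.rpow_one 4
    have h5 : min (A.card : ℝ) ((B.card : ℝ) ^ (3 / 5 : ℝ)) ≤
        4 * min (A.card : ℝ) ((B'.card : ℝ) ^ (3 / 5 : ℝ)) := by
      rcases le_total (A.card : ℝ) ((B'.card : ℝ) ^ (3 / 5 : ℝ)) with h6 | h6
      · rw [min_eq_left h6]
        exact (min_le_left _ _).trans (by linarith)
      · rw [min_eq_right h6]
        exact (min_le_right _ _).trans h4
    calc (A.card : ℝ) * min (A.card : ℝ) ((B.card : ℝ) ^ (3 / 5 : ℝ)) ≤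
        A.card * (4 * min (A.card : ℝ) ((B'.card : ℝ) ^ (3 / 5 : ℝ))) :=
          mul_le_mul_of_nonneg_left h5 ha.le
      _ = 4 * (A.card * min (A.card : ℝ) ((B'.card : ℝ) ^ (3 / 5 : ℝ))) := by ring
      _ ≤ 4 * (2 ^ 17 * (K ^ 6 * D)) := mul_le_mul_of_nonneg_left h3 (by norm_num)
      _ = _ := by ring
  set Bp := B.filter (fun b => 0 < b) with hBp
  set Bn := B.filter (fun b => b < 0) with hBn
  have hsplit : B.card ≤ Bp.card + Bn.card + 1 := by
    have h3 : B ⊆ Bp ∪ Bn ∪ {0} := by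
      intro b hb
      rcases lt_trichotomy b 0 with h4 | h4 | h4
      · exact Finset.mem_union_left _ (Finset.mem_union_right _ (Finset.mem_filter.2 ⟨hb, h4⟩))
      · exact Finset.mem_union_right _ (Finset.mem_singleton.2 h4)
      · exact Finset.mem_union_left _ (Finset.mem_union_left _ (Finset.mem_filter.2 ⟨hb, h4⟩))
    refine (Finset.card_le_card h3).trans ((Finset.card_union_le _ _).trans ?_)
    rw [Finset.card_singleton]
    exact Nat.add_le_add_right (Finset.card_union_le _ _) _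
  rcases le_total Bn.card Bp.card with h3 | h3
  · refine key β Bp hβ hdet (fun b hb => (Finset.mem_filter.1 hb).2) (by omega) ?_
    exact Finset.image_subset_image (Finset.product_subset_product_right
      (Finset.filter_subset _ _))
  · refine key (-β) (Bn.image (fun b => -b)) (neg_ne_zero.2 hβ) (by rw [neg_sq]; exact hdet) ?_ ?_ ?_
    · intro b hb
      obtain ⟨x, hx, rfl⟩ := Finset.mem_image.1 hb
      exact neg_pos.2 (Finset.mem_filter.1 hx).2
    · rw [Finset.card_image_of_injective _ neg_injective]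
      omega
    · intro c hc
      obtain ⟨z, hz, rfl⟩ := Finset.mem_image.1 hc
      obtain ⟨hz1, hz2⟩ := Finset.mem_product.1 hz
      obtain ⟨y, hy, hyz⟩ := Finset.mem_image.1 hz2
      refine Finset.mem_image.2 ⟨(z.1, y), Finset.mem_product.2 ⟨hz1,
        (Finset.mem_filter.1 hy).1⟩, ?_⟩
      unfold fm
      simp only
      rw [← hyz]
      ring

/-- Distances between two lines, the points on the first line have small doubling. -/
theorem one_sided (a u b v : Plane) (P Q : Finset Plane) (K : ℝ)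
    (huv : LinearIndependent ℝ ![u, v]) (horth : (inner ℝ u v : ℝ) ≠ 0)
    (hP : ∀ p ∈ P, ∃ t : ℝ, p = a + t • u) (hQ : ∀ q ∈ Q, ∃ t : ℝ, q = b + t • v)
    (hK : ((P + P).card : ℝ) ≤ K * P.card) :
    (P.card : ℝ) * min (P.card : ℝ) ((Q.card : ℝ) ^ (3 / 5 : ℝ)) ≤
      2 ^ 19 * (K ^ 6 * ((distances P Q).card : ℝ)) := by
  classical
  have hli := LinearIndependent.pair_iff.1 huv
  have hu : u ≠ 0 := by
    intro h0
    have := hli 1 0 (by simp [h0])
    exact one_ne_zero this.1
  have hv : v ≠ 0 := by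
    intro h0
    have := hli 0 1 (by simp [h0])
    exact one_ne_zero this.2
  have hα : 0 < (inner ℝ u u : ℝ) := real_inner_self_pos.2 hu
  have hγ : 0 < (inner ℝ v v : ℝ) := real_inner_self_pos.2 hv
  have hdet := det_pos huv
  -- the intersection point of the two lines
  obtain ⟨s₀, t₀, hst⟩ : ∃ s t : ℝ, a - b = s • u + t • v := by
    have hfr : Module.finrank ℝ Plane = 2 := by simp [Plane]
    have hspan : Submodule.span ℝ (Set.range ![u, v]) = ⊤ :=
      huv.span_eq_top_of_card_eq_finrank (by simp [hfr])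
    have h1 : a - b ∈ Submodule.span ℝ (Set.range ![u, v]) := by rw [hspan]; trivial
    have h2 : Set.range ![u, v] = {u, v} := by
      simp [Matrix.range_cons, Matrix.range_empty, Set.pair_comm]
    rw [h2, Submodule.mem_span_pair] at h1
    obtain ⟨s, t, h⟩ := h1
    exact ⟨s, t, h.symm⟩
  set O : Plane := b + t₀ • v with hO
  have hPO : ∀ p ∈ P, ∃ t : ℝ, p = O + t • u := by
    intro p hp
    obtain ⟨t, ht⟩ := hP p hp
    refine ⟨t + s₀, ?_⟩
    have h1 : a = b + (s₀ • u + t₀ • v) := by rw [← hst]; abel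
    rw [ht, h1, hO, add_smul]
    abel
  have hQO : ∀ q ∈ Q, ∃ t : ℝ, q = O + t • v := by
    intro q hq
    obtain ⟨t, ht⟩ := hQ q hq
    refine ⟨t - t₀, ?_⟩
    rw [ht, hO, sub_smul]
    abel
  choose! x hx using hPO
  choose! y hy using hQO
  set A : Finset ℝ := P.image x with hA
  set B : Finset ℝ := Q.image y with hB
  have hAcard : A.card = P.card := by
    apply Finset.card_image_of_injOn
    intro p hp p' hp' heq
    rw [hx p hp, hx p' hp', heq]
  have hBcard : B.card = Q.card := by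
    apply Finset.card_image_of_injOn
    intro p hp p' hp' heq
    rw [hy p hp, hy p' hp', heq]
  have hcoord : ∀ (w : Plane) (s : ℝ), w ≠ 0 →
      (inner ℝ (s • w) w : ℝ) / (inner ℝ w w : ℝ) = s := by
    intro w s hw
    have : (inner ℝ w w : ℝ) ≠ 0 := (real_inner_self_pos.2 hw).ne'
    rw [real_inner_smul_left]
    field_simp
  have hAA : (A + A).card ≤ (P + P).card := by
    have h1 : A + A ⊆ (P + P).image
        (fun z => (inner ℝ (z - (O + O)) u : ℝ) / (inner ℝ u u : ℝ)) := by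
      intro z hz
      obtain ⟨z1, hz1, z2, hz2, rfl⟩ := Finset.mem_add.1 hz
      obtain ⟨p, hp, rfl⟩ := Finset.mem_image.1 hz1
      obtain ⟨p', hp', rfl⟩ := Finset.mem_image.1 hz2
      refine Finset.mem_image.2 ⟨p + p', Finset.add_mem_add hp hp', ?_⟩
      have h2 : p + p' - (O + O) = (x p + x p') • u := by
        conv_lhs => rw [hx p hp, hx p' hp']
        rw [add_smul]; abel
      rw [h2, hcoord u _ hu]
    exact (Finset.card_le_card h1).trans Finset.card_image_le
  have hval : ∀ (s t : ℝ), dist (O + s • u) (O + t • v) ^ 2 =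
      fm (inner ℝ u u) (inner ℝ u v) (inner ℝ v v) (s, t) := by
    intro s t
    have h1 := dist_sq_eq O u O v s t
    rw [h1]
    simp only [sub_self, inner_zero_left, fm, qf]
    ring
  have hcard : ((A ×ˢ B).image (fm (inner ℝ u u) (inner ℝ u v) (inner ℝ v v))).card ≤
      (distances P Q).card := by
    calc _ ≤ ((distances P Q).image (fun d => d ^ 2)).card := by
          apply Finset.card_le_card
          intro w hw
          obtain ⟨z, hz, rfl⟩ := Finset.mem_image.1 hw
          obtain ⟨hz1, hz2⟩ := Finset.mem_product.1 hz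
          obtain ⟨p, hp, hpz⟩ := Finset.mem_image.1 hz1
          obtain ⟨q, hq, hqz⟩ := Finset.mem_image.1 hz2
          refine Finset.mem_image.2 ⟨dist p q, ?_, ?_⟩
          · exact Finset.mem_image.2 ⟨(p, q), Finset.mem_product.2 ⟨hp, hq⟩, rfl⟩
          · have e1 : p = O + z.1 • u := by rw [← hpz]; exact hx p hp
            have e2 : q = O + z.2 • v := by rw [← hqz]; exact hy q hq
            have h3 := hval z.1 z.2
            rw [← e1, ← e2] at h3
            exact h3
      _ ≤ (distances P Q).card := Finset.card_image_le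
  have hmain := main_form hα hγ horth hdet A B K
    (by rw [hAcard]; exact le_trans (by exact_mod_cast hAA) hK) hcard
  rw [hAcard, hBcard] at hmain
  exact hmain

end Pool.Agent.MP_d807e3_co.OneSided
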